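import Pool.Agent.J6H23.Rig.Moduli

/-!
# Iteration
-/

set_option autoImplicit false

namespace Pool.Agent.J6H23.Rig

open Finset

/-- For `N ≥ 2 ^ (A w ^ 3)` the Hankel matrices of order `N` have approximations with at most
`N ^ e` entries in each row and rank at most `C N / w`. -/
def Good (e : ℝ) : Prop :=
  ∃ C : ℝ, 0 < C ∧ ∃ A : ℕ, ∀ w : ℕ, A ≤ w → ∀ N : ℕ, 2 ^ (A * w ^ 3) ≤ N →
    Apx ℚ N ((N : ℝ) ^ e) (C * N / w)

lemma good_one : Good 1 := by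
  refine ⟨1, one_pos, 0, fun w _ N _ => ?_⟩
  rw [Real.rpow_one]
  exact (apx_trivial ℚ N).mono le_rfl le_rfl (by positivity)

lemma Good.mono {e e' : ℝ} (h : Good e) (he : e ≤ e') : Good e' := by
  obtain ⟨C, hC, A, hA⟩ := h
  refine ⟨C, hC, A, fun w hw N hN => (hA w hw N hN).mono le_rfl ?_ le_rfl⟩
  refine Real.rpow_le_rpow_of_exponent_le ?_ he
  have : 1 ≤ N := le_trans Nat.one_le_two_pow hN
  exact_mod_cast this

lemma bound_rank {q n w N N₁ N₂ D d : ℕ} {C : ℝ} (hC : 0 < C) (hw : 0 < w) (hn : n = d * w)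
    (h1 : N₁ * N₂ ≤ N + N₂) (h2 : q ≤ 2 * N₂) (h3 : N₂ ≤ N) (h4 : D ≤ 4 * N₁) :
    (4 * ((q : ℝ) * n) / w ^ 2) * D + N₂ * (C * N₁ / w) ≤ (64 * d + 2 * C) * N / w := by
  have hw' : (0 : ℝ) < w := by exact_mod_cast hw
  have e1 : (N₁ : ℝ) * N₂ ≤ 2 * N := by
    have : N₁ * N₂ ≤ 2 * N := by omega
    exact_mod_cast this
  have e2 : (q : ℝ) ≤ 2 * N₂ := by exact_mod_cast h2
  have e3 : (D : ℝ) ≤ 4 * N₁ := by exact_mod_cast h4
  have e4 : (n : ℝ) = d * w := by rw [hn]; push_cast; ring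
  have e5 : (q : ℝ) * D ≤ (2 * N₂) * (4 * N₁) :=
    mul_le_mul e2 e3 (Nat.cast_nonneg _) (by positivity)
  have e6 : (4 * ((q : ℝ) * n) / w ^ 2) * D = 4 * d * (q * D) / w := by
    rw [e4]; field_simp
  rw [e6]
  have e7 : (N₂ : ℝ) * (C * N₁ / w) = C * (N₁ * N₂) / w := by ring
  rw [e7, ← add_div]
  refine div_le_div_of_nonneg_right ?_ hw'.le
  have hd : (0 : ℝ) ≤ d := Nat.cast_nonneg _
  nlinarith [mul_le_mul_of_nonneg_left e5 (mul_nonneg (by norm_num : (0 : ℝ) ≤ 4) hd),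
    mul_le_mul_of_nonneg_left e1 hC.le, mul_le_mul_of_nonneg_left e1 hd]

lemma bound_row {n w N N₁ d t A' : ℕ} {e η : ℝ} (hw : 0 < w) (hd : 0 < d) (hn : n = d * w)
    (he0 : 0 ≤ e) (he1 : e ≤ 1) (hη : 0 < η) (hA' : (8 * d + 6 : ℝ) ≤ η * A')
    (hN : 2 ^ (A' * w ^ 3) ≤ N) (h1 : pr n t ^ 2 ≤ N) (h2 : N₁ ^ 2 ≤ 16 ^ (n + 1) * N) :
    (4 : ℝ) ^ n * (((2 * n * (t * n.factorial)) ^ 2 : ℕ) : ℝ) ^ (2 * w) * (N₁ : ℝ) ^ e ≤
      (N : ℝ) ^ (e / 2 + 1 / d + η) := by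
  have hN1 : 1 ≤ N := le_trans Nat.one_le_two_pow hN
  have hN0 : (0 : ℝ) < N := by exact_mod_cast hN1
  set L := t * n.factorial with hL
  -- the power of `L`
  have a1 : ((L : ℝ) ^ (4 * w)) ≤ (N : ℝ) ^ ((1 : ℝ) / d) := by
    have b1 : (L ^ (4 * w)) ^ d ≤ N := by
      calc (L ^ (4 * w)) ^ d = (L ^ (2 * n)) ^ 2 := by
            rw [← pow_mul, ← pow_mul, hn]; congr 1; ring
        _ ≤ (pr n t) ^ 2 := Nat.pow_le_pow_left (le_pr' n t) 2
        _ ≤ N := h1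
    have b2 : (((L : ℝ) ^ (4 * w)) ^ d) ≤ N := by exact_mod_cast b1
    calc ((L : ℝ) ^ (4 * w)) = (((L : ℝ) ^ (4 * w)) ^ d) ^ ((d : ℝ)⁻¹) :=
          (Real.pow_rpow_inv_natCast (by positivity) hd.ne').symm
      _ ≤ (N : ℝ) ^ ((d : ℝ)⁻¹) := Real.rpow_le_rpow (by positivity) b2 (by positivity)
      _ = _ := by rw [one_div]
  -- the power of `N₁`
  have a2 : (N₁ : ℝ) ^ e ≤ 4 ^ (n + 1) * (N : ℝ) ^ (e / 2) := by
    have b1 : ((N₁ : ℝ) ^ 2) ≤ 16 ^ (n + 1) * N := by exact_mod_cast h2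
    have b2 : (N₁ : ℝ) ^ e = ((N₁ : ℝ) ^ 2) ^ (e / 2) := by
      rw [← Real.rpow_natCast, ← Real.rpow_mul (Nat.cast_nonneg _)]
      congr 1; push_cast; ring
    rw [b2]
    calc ((N₁ : ℝ) ^ 2) ^ (e / 2) ≤ (16 ^ (n + 1) * N) ^ (e / 2) :=
          Real.rpow_le_rpow (by positivity) b1 (by positivity)
      _ = ((16 : ℝ) ^ (n + 1)) ^ (e / 2) * (N : ℝ) ^ (e / 2) :=
          Real.mul_rpow (by positivity) hN0.le
      _ ≤ ((16 : ℝ) ^ (n + 1)) ^ ((1 : ℝ) / 2) * (N : ℝ) ^ (e / 2) := by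
          refine mul_le_mul_of_nonneg_right ?_ (by positivity)
          refine Real.rpow_le_rpow_of_exponent_le ?_ (by linarith)
          exact one_le_pow₀ (by norm_num)
      _ = _ := by
          congr 1
          have : (16 : ℝ) ^ (n + 1) = (4 ^ (n + 1)) ^ 2 := by
            rw [← pow_mul, mul_comm, pow_mul]; norm_num
          rw [this, ← Real.sqrt_eq_rpow, Real.sqrt_sq (by positivity)]
  -- the constants
  have a3 : (4 : ℝ) ^ n * (2 * n) ^ (4 * w) * 4 ^ (n + 1) ≤ (N : ℝ) ^ η := by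
    have b1 : (4 : ℝ) ^ n * (2 * n) ^ (4 * w) * 4 ^ (n + 1) ≤ 2 ^ ((8 * d + 6) * w ^ 3) := by
      have c1 : 4 ^ n * (2 * n) ^ (4 * w) * 4 ^ (n + 1) ≤ 2 ^ ((8 * d + 6) * w ^ 3) := by
        have c2 : 2 * n ≤ 2 ^ (n + 1) := by
          have := (Nat.lt_two_pow_self (n := n)).le
          rw [pow_succ]; omega
        calc 4 ^ n * (2 * n) ^ (4 * w) * 4 ^ (n + 1)
            ≤ 4 ^ n * (2 ^ (n + 1)) ^ (4 * w) * 4 ^ (n + 1) := by
              gcongr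
          _ = 2 ^ (2 * n + (n + 1) * (4 * w) + 2 * (n + 1)) := by
              rw [show (4 : ℕ) = 2 ^ 2 by norm_num]
              rw [← pow_mul, ← pow_mul, ← pow_mul, ← pow_add, ← pow_add]
          _ ≤ _ := by
              refine Nat.pow_le_pow_right (by norm_num) ?_
              rw [hn]
              have d1 : 1 ≤ w := hw
              have d2 : w ≤ w ^ 3 := Nat.le_self_pow (by norm_num) w
              have d3 : w ^ 2 ≤ w ^ 3 := Nat.pow_le_pow_right d1 (by norm_num)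
              have d4 : 1 ≤ w ^ 3 := Nat.one_le_pow _ _ d1
              have d5 : 2 * (d * w) + (d * w + 1) * (4 * w) + 2 * (d * w + 1) =
                4 * d * w + 4 * d * w ^ 2 + 4 * w + 2 := by ring
              rw [d5]
              have d6 : 4 * d * w ≤ 4 * d * w ^ 3 := Nat.mul_le_mul_left _ d2
              have d7 : 4 * d * w ^ 2 ≤ 4 * d * w ^ 3 := Nat.mul_le_mul_left _ d3
              have d8 : (8 * d + 6) * w ^ 3 = 4 * d * w ^ 3 + 4 * d * w ^ 3 + 4 * w ^ 3 +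
                2 * w ^ 3 := by ring
              rw [d8]
              omega
      exact_mod_cast c1
    refine b1.trans ?_
    have b2 : ((2 : ℝ) ^ (A' * w ^ 3)) ≤ N := by exact_mod_cast hN
    calc (2 : ℝ) ^ ((8 * d + 6) * w ^ 3) = (2 : ℝ) ^ (((8 * d + 6) * w ^ 3 : ℕ) : ℝ) := by
          rw [Real.rpow_natCast]
      _ ≤ (2 : ℝ) ^ (((A' * w ^ 3 : ℕ) : ℝ) * η) := by
          refine Real.rpow_le_rpow_of_exponent_le (by norm_num) ?_
          push_cast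
          have : (0 : ℝ) ≤ (w : ℝ) ^ 3 := by positivity
          nlinarith
      _ = ((2 : ℝ) ^ (A' * w ^ 3)) ^ η := by
          rw [Real.rpow_mul (by norm_num), Real.rpow_natCast]
      _ ≤ _ := Real.rpow_le_rpow (by positivity) b2 hη.le
  have a4 : ((((2 * n * L) ^ 2 : ℕ) : ℝ)) ^ (2 * w) = (2 * n) ^ (4 * w) * (L : ℝ) ^ (4 * w) := by
    push_cast
    rw [← pow_mul, mul_pow, show 2 * (2 * w) = 4 * w by ring]
  rw [a4]
  calc (4 : ℝ) ^ n * ((2 * n) ^ (4 * w) * (L : ℝ) ^ (4 * w)) * (N₁ : ℝ) ^ e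
      ≤ (4 : ℝ) ^ n * ((2 * n) ^ (4 * w) * (N : ℝ) ^ ((1 : ℝ) / d)) *
        (4 ^ (n + 1) * (N : ℝ) ^ (e / 2)) := by
        refine mul_le_mul ?_ a2 (by positivity) (by positivity)
        refine mul_le_mul_of_nonneg_left ?_ (by positivity)
        exact mul_le_mul_of_nonneg_left a1 (by positivity)
    _ = ((4 : ℝ) ^ n * (2 * n) ^ (4 * w) * 4 ^ (n + 1)) *
        ((N : ℝ) ^ ((1 : ℝ) / d) * (N : ℝ) ^ (e / 2)) := by ring
    _ ≤ (N : ℝ) ^ η * ((N : ℝ) ^ ((1 : ℝ) / d) * (N : ℝ) ^ (e / 2)) :=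
        mul_le_mul_of_nonneg_right a3 (by positivity)
    _ = _ := by
        rw [← Real.rpow_add hN0, ← Real.rpow_add hN0]
        congr 1; ring

theorem good_step {e : ℝ} (he0 : 0 ≤ e) (he1 : e ≤ 1) (h : Good e) (d : ℕ) (hd : 0 < d) {η : ℝ}
    (hη : 0 < η) : Good (e / 2 + 1 / d + η) := by
  obtain ⟨C, hC, A, hA⟩ := h
  obtain ⟨A1, hA1⟩ := exists_nat_ge ((8 * d + 6 : ℝ) / η)
  set A' := max (max (2 * A) (16 * d ^ 3)) (max A1 1) with hA'def
  have ha1 : 2 * A ≤ A' := (le_max_left _ _).trans (le_max_left _ _)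
  have ha2 : 16 * d ^ 3 ≤ A' := (le_max_right _ _).trans (le_max_left _ _)
  have ha3 : A1 ≤ A' := (le_max_left _ _).trans (le_max_right _ _)
  have ha4 : 1 ≤ A' := (le_max_right _ _).trans (le_max_right _ _)
  refine ⟨64 * d + 2 * C, by positivity, A', fun w hw N hN => ?_⟩
  have hw0 : 0 < w := by omega
  have hn0 : 0 < d * w := Nat.mul_pos hd hw0
  have hexp : 4 * (d * w) * (d * w + 1) ^ 2 ≤ A' * w ^ 3 := by
    calc 4 * (d * w) * (d * w + 1) ^ 2 ≤ 4 * (d * w) * (2 * (d * w)) ^ 2 := by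
          refine Nat.mul_le_mul_left _ (Nat.pow_le_pow_left ?_ 2)
          omega
      _ = 16 * d ^ 3 * w ^ 3 := by ring
      _ ≤ _ := Nat.mul_le_mul_right _ ha2
  obtain ⟨t, ht, hq1, hq2⟩ := exists_moduli (d * w) N hn0
    (le_trans (Nat.pow_le_pow_right (by norm_num) hexp) hN)
  obtain ⟨N₁, N₂, D, h1, h2, h3, h4, h5, h6, h7, h8⟩ := step_nat (d * w) w N hw0 hn0 t ht hq1
  have hq0 := pr_pos (d * w) t
  have hN2 : N₂ ≤ N := by nlinarith
  have hN1big : 2 ^ (A * w ^ 3) ≤ N₁ := by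
    have e1 : (2 ^ (A * w ^ 3)) ^ 2 ≤ N₁ ^ 2 := by
      calc (2 ^ (A * w ^ 3)) ^ 2 = 2 ^ (2 * A * w ^ 3) := by rw [← pow_mul]; congr 1; ring
        _ ≤ 2 ^ (A' * w ^ 3) := Nat.pow_le_pow_right (by norm_num) (Nat.mul_le_mul_right _ ha1)
        _ ≤ N := hN
        _ ≤ _ := h7
    exact (Nat.pow_le_pow_iff_left (by norm_num)).1 e1
  have hN1sq : N₁ ^ 2 ≤ 16 ^ (d * w + 1) * N := by
    have hNpos : 0 < N := lt_of_lt_of_le (by positivity) hN
    have e1 : N₁ * pr (d * w) t ≤ 4 * N := by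
      calc N₁ * pr (d * w) t ≤ N₁ * (2 * N₂) := Nat.mul_le_mul_left _ h4
        _ = 2 * (N₁ * N₂) := by ring
        _ ≤ 4 * N := by omega
    have e2 : N₁ ^ 2 * pr (d * w) t ^ 2 ≤ 16 * N ^ 2 := by
      calc N₁ ^ 2 * pr (d * w) t ^ 2 = (N₁ * pr (d * w) t) ^ 2 := by ring
        _ ≤ (4 * N) ^ 2 := Nat.pow_le_pow_left e1 2
        _ = _ := by ring
    have e3 : N₁ ^ 2 * N ≤ (16 ^ (d * w + 1) * N) * N := by
      calc N₁ ^ 2 * N ≤ N₁ ^ 2 * (16 ^ (d * w) * pr (d * w) t ^ 2) :=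
            Nat.mul_le_mul_left _ hq2.le
        _ = 16 ^ (d * w) * (N₁ ^ 2 * pr (d * w) t ^ 2) := by ring
        _ ≤ 16 ^ (d * w) * (16 * N ^ 2) := Nat.mul_le_mul_left _ e2
        _ = _ := by rw [pow_succ]; ring
    exact Nat.le_of_mul_le_mul_right e3 hNpos
  refine (h8 _ _ (hA w (by omega) N₁ hN1big)).mono le_rfl ?_ ?_
  · refine bound_row hw0 hd rfl he0 he1 hη ?_ hN hq1 hN1sq
    rw [div_le_iff₀ hη] at hA1
    have : (A1 : ℝ) ≤ A' := by exact_mod_cast ha3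
    nlinarith
  · exact bound_rank hC hw0 rfl h2 h4 hN2 h6

/-- **All exponents are good.** -/
theorem good_all {ε : ℝ} (hε : 0 < ε) : Good ε := by
  obtain ⟨d, hd⟩ := exists_nat_gt (8 / ε + 8)
  have hd0 : 0 < d := by
    have : (0 : ℝ) < d := lt_trans (by positivity) hd
    exact_mod_cast this
  have hd' : (0 : ℝ) < d := by exact_mod_cast hd0
  have h1 : (1 : ℝ) / d ≤ ε / 8 := by
    rw [div_le_iff₀ hd']
    have : 8 / ε ≤ d := by linarith [show (0 : ℝ) < 8 / ε by positivity]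
    rw [div_le_iff₀ hε] at this
    linarith
  have h2 : (1 : ℝ) / d ≤ 1 / 8 := by
    rw [div_le_iff₀ hd']
    linarith [show (0 : ℝ) < 8 / ε by positivity]
  set η := min (ε / 8) (1 / 8) with hηdef
  have hη : 0 < η := lt_min (by positivity) (by norm_num)
  have hη1 : η ≤ ε / 8 := min_le_left _ _
  have hη2 : η ≤ 1 / 8 := min_le_right _ _
  have key : ∀ L : ℕ, ∃ e : ℝ, 0 ≤ e ∧ e ≤ 1 ∧ e ≤ (1 / 2) ^ L + ε / 2 ∧ Good e := by
    intro L
    induction L with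
    | zero => exact ⟨1, by norm_num, le_rfl, by rw [pow_zero]; linarith, good_one⟩
    | succ L ih =>
      obtain ⟨e, e0, e1, e2, e3⟩ := ih
      refine ⟨e / 2 + 1 / d + η, by positivity, by linarith, ?_, good_step e0 e1 e3 d hd0 hη⟩
      rw [pow_succ]
      linarith
  obtain ⟨L, hL⟩ := exists_pow_lt_of_lt_one (show 0 < ε / 2 by positivity)
    (show (1 / 2 : ℝ) < 1 by norm_num)
  obtain ⟨e, e0, e1, e2, e3⟩ := key L
  exact e3.mono (by linarith)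

end Pool.Agent.J6H23.Rig
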