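import Pool.Agent.J6H23.Rig.Asym

/-!
# From Hankel matrices to Paley matrices
-/

set_option autoImplicit false

namespace Pool.Agent.J6H23.Rig

open Finset Matrix

/-- the core of the Paley matrix is a Hankel matrix up to signs of columns -/
theorem core {F : Type} [Field F] [Fintype F] [DecidableEq F] {s r : ℝ}
    (h : Apx ℚ (Fintype.card Fˣ) s r) :
    ∃ (Z : Matrix Fˣ Fˣ ℚ) (E : Fˣ → Finset Fˣ) (κ : Type) (_ : Fintype κ)
      (U : Matrix Fˣ κ ℚ) (V : Matrix κ Fˣ ℚ), (∀ x y, Z x y ≠ 0 → y ∈ E x) ∧
      (∀ x, ((E x).card : ℝ) ≤ s) ∧ (Fintype.card κ : ℝ) ≤ 2 * r ∧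
      ∀ x y : Fˣ, ((quadraticChar F ((x : F) - y) : ℤ) : ℚ) = (Z + U * V) x y := by
  classical
  obtain ⟨E, ρ, i1, B, B', hE, hρ, hA⟩ := h
  obtain ⟨g, hg⟩ := IsCyclic.exists_generator (α := Fˣ)
  have hord : orderOf g = Fintype.card Fˣ := by
    rw [← Nat.card_eq_fintype_card]
    exact orderOf_eq_card_of_forall_mem_zpowers hg
  let f : Fin (Fintype.card Fˣ) → Fˣ := fun i => g ^ (i : ℕ)
  have hf : Function.Bijective f := by
    rw [Fintype.bijective_iff_injective_and_card]
    refine ⟨fun i j hij => ?_, by rw [Fintype.card_fin]⟩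
    apply Fin.ext
    refine pow_injOn_Iio_orderOf (x := g) ?_ ?_ hij
    · rw [Set.mem_Iio, hord]; exact i.2
    · rw [Set.mem_Iio, hord]; exact j.2
  let a : Fˣ ≃ Fin (Fintype.card Fˣ) := (Equiv.ofBijective f hf).symm
  have ha : ∀ x, g ^ ((a x : Fin _) : ℕ) = x := fun x => (Equiv.ofBijective f hf).apply_symm_apply x
  obtain ⟨Z, A, C, hZ, hh⟩ := hA fun t => ((quadraticChar F ((g : F) ^ t - 1) : ℤ) : ℚ)
  refine ⟨Matrix.of fun x y => ((quadraticChar F (y : F) : ℤ) : ℚ) * Z (a x) (a y⁻¹),
    fun x => (E (a x)).image fun j => (a.symm j)⁻¹, ρ ⊕ ρ, inferInstance,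
    Matrix.of fun x k => Sum.elim (fun l => A (a x) l) (fun l => B' (a x) l) k,
    Matrix.of fun k y => Sum.elim
      (fun l => ((quadraticChar F (y : F) : ℤ) : ℚ) * B l (a y⁻¹))
      (fun l => ((quadraticChar F (y : F) : ℤ) : ℚ) * C l (a y⁻¹)) k, ?_, ?_, ?_, ?_⟩
  · intro x y hxy
    rw [Finset.mem_image]
    refine ⟨a y⁻¹, hZ _ _ fun h0 => hxy ?_, ?_⟩
    · rw [Matrix.of_apply, h0, mul_zero]
    · rw [Equiv.symm_apply_apply, inv_inv]
  · intro x
    refine le_trans ?_ (hE (a x))
    exact_mod_cast Finset.card_image_le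
  · rw [Fintype.card_sum]
    push_cast
    linarith
  · intro x y
    have e1 : (x : F) - y = y * ((g : F) ^ ((a x : ℕ) + (a y⁻¹ : ℕ)) - 1) := by
      have h1 : (g : F) ^ (a x : ℕ) = x := by
        rw [← Units.val_pow_eq_pow_val, ha]
      have h2 : (g : F) ^ (a y⁻¹ : ℕ) = ((y⁻¹ : Fˣ) : F) := by
        rw [← Units.val_pow_eq_pow_val, ha]
      rw [pow_add, h1, h2, mul_sub, mul_one]
      congr 1
      rw [mul_comm (x : F), ← mul_assoc, Units.mul_inv, one_mul]
    rw [e1, map_mul]
    push_cast
    rw [hh (a x) (a y⁻¹)]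
    simp only [Matrix.add_apply, Matrix.mul_apply, Matrix.of_apply, Fintype.sum_sum_type,
      Sum.elim_inl, Sum.elim_inr, mul_add, Finset.mul_sum]
    rw [add_assoc]
    congr 2
    · exact Finset.sum_congr rfl fun l _ => by ring
    · exact Finset.sum_congr rfl fun l _ => by ring

/-- adding two rows, two columns and the identity matrix -/
theorem border {F : Type} [Field F] [Fintype F] [DecidableEq F] {s r : ℝ}
    (h : Apx ℚ (Fintype.card Fˣ) s r) (H : Matrix (Option F) (Option F) ℚ)
    (hH : ∀ x y : Fˣ, H (some x) (some y) = (if x = y then 1 else 0) +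
      ((quadraticChar F ((x : F) - y) : ℤ) : ℚ)) :
    ∃ Z : Matrix (Option F) (Option F) ℚ, (((H - Z).rank : ℕ) : ℝ) ≤ 2 * r + 4 ∧
      (({p : Option F × Option F | Z p.1 p.2 ≠ 0}.ncard : ℕ) : ℝ) ≤
        (Fintype.card F + 1) + Fintype.card Fˣ * s := by
  classical
  obtain ⟨Z, E, κ, i1, U, V, hZ, hE, hκ, hM⟩ := core h
  let c : Option F → Option Fˣ := fun u => match u with
    | none => none
    | some x => if h : x = 0 then none else some (Units.mk0 x h)
  have hc1 : c none = none := rfl
  have hc2 : c (some 0) = none := by simp [c]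
  have hc3 : ∀ x : Fˣ, c (some (x : F)) = some x := by
    intro x
    simp only [c, x.ne_zero, dif_neg, not_false_eq_true]
    congr 1
    exact Units.ext rfl
  have hcase : ∀ u : Option F, u = none ∨ u = some 0 ∨ ∃ x : Fˣ, u = some (x : F) := by
    intro u
    rcases u with _ | x
    · exact Or.inl rfl
    · by_cases hx : x = 0
      · right; left; rw [hx]
      · right; right; exact ⟨Units.mk0 x hx, rfl⟩
  let W : Matrix (Option F) (Option F) ℚ := Matrix.of fun u v =>
    match c u, c v with
    | some x, some y => (if x = y then 1 else 0) + Z x y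
    | _, _ => 0
  have hW1 : ∀ x y : Fˣ, W (some (x : F)) (some (y : F)) = (if x = y then 1 else 0) + Z x y := by
    intro x y
    simp only [W, Matrix.of_apply, hc3]
  set L := H - W with hL
  let P : Matrix (Option F) (κ ⊕ (Bool ⊕ Bool)) ℚ := Matrix.of fun u k =>
    match k with
    | Sum.inl k => (match c u with | some x => U x k | none => 0)
    | Sum.inr (Sum.inl false) => if u = none then 1 else 0
    | Sum.inr (Sum.inl true) => if u = some 0 then 1 else 0
    | Sum.inr (Sum.inr false) => (match c u with | some _ => L u none | none => 0)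
    | Sum.inr (Sum.inr true) => (match c u with | some _ => L u (some 0) | none => 0)
  let Q : Matrix (κ ⊕ (Bool ⊕ Bool)) (Option F) ℚ := Matrix.of fun k v =>
    match k with
    | Sum.inl k => (match c v with | some y => V k y | none => 0)
    | Sum.inr (Sum.inl false) => L none v
    | Sum.inr (Sum.inl true) => L (some 0) v
    | Sum.inr (Sum.inr false) => if v = none then 1 else 0
    | Sum.inr (Sum.inr true) => if v = some 0 then 1 else 0
  have hPQ : L = P * Q := by
    ext u v
    rw [Matrix.mul_apply, Fintype.sum_sum_type, Fintype.sum_sum_type, Fintype.sum_bool,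
      Fintype.sum_bool]
    simp only [P, Q, Matrix.of_apply]
    rcases hcase u with rfl | rfl | ⟨x, rfl⟩
    · simp [hc1]
    · simp [hc2]
    · simp only [hc3]
      rcases hcase v with rfl | rfl | ⟨y, rfl⟩
      · simp [hc1]
      · simp [hc2]
      · have e1 : L (some (x : F)) (some (y : F)) = (U * V) x y := by
          rw [hL, Matrix.sub_apply, hH, hW1, hM, Matrix.add_apply]
          ring
        rw [e1, Matrix.mul_apply]
        simp [hc3]
  refine ⟨W, ?_, ?_⟩
  · have h1 : L.rank ≤ Fintype.card κ + 4 := by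
      rw [hPQ]
      refine (Matrix.rank_mul_le_left P Q).trans ((Matrix.rank_le_card_width P).trans ?_)
      rw [Fintype.card_sum, Fintype.card_sum, Fintype.card_bool]
    have h2 : ((L.rank : ℕ) : ℝ) ≤ Fintype.card κ + 4 := by exact_mod_cast h1
    linarith
  · have hsub : {p : Option F × Option F | W p.1 p.2 ≠ 0} ⊆
        ((Finset.univ.image fun u : Option F => (u, u)) ∪
          (Finset.univ.sigma E).image fun xy : (_ : Fˣ) × Fˣ =>
            ((some (xy.1 : F) : Option F), (some (xy.2 : F) : Option F)) :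
            Finset (Option F × Option F)) := by
      rintro ⟨u, v⟩ huv
      change W u v ≠ 0 at huv
      rw [Finset.mem_coe, Finset.mem_union, Finset.mem_image, Finset.mem_image]
      rcases hcase u with rfl | rfl | ⟨x, rfl⟩
      · exact absurd (by simp [W, hc1]) huv
      · exact absurd (by simp [W, hc2]) huv
      · rcases hcase v with rfl | rfl | ⟨y, rfl⟩
        · exact absurd (by simp [W, hc1, hc3]) huv
        · exact absurd (by simp [W, hc2, hc3]) huv
        · rw [hW1] at huv
          by_cases hxy : x = y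
          · left
            exact ⟨some (x : F), Finset.mem_univ _, by rw [hxy]⟩
          · right
            rw [if_neg hxy, zero_add] at huv
            exact ⟨⟨x, y⟩, Finset.mem_sigma.2 ⟨Finset.mem_univ _, hZ x y huv⟩, rfl⟩
    have h1 : {p : Option F × Option F | W p.1 p.2 ≠ 0}.ncard ≤
        (Fintype.card F + 1) + ∑ x, (E x).card := by
      refine (Set.ncard_le_ncard hsub (Finset.finite_toSet _)).trans ?_
      rw [Set.ncard_coe_finset]
      refine (Finset.card_union_le _ _).trans (add_le_add ?_ ?_)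
      · refine Finset.card_image_le.trans ?_
        rw [Finset.card_univ, Fintype.card_option]
      · refine Finset.card_image_le.trans ?_
        rw [Finset.card_sigma]
    have h2 : (({p : Option F × Option F | W p.1 p.2 ≠ 0}.ncard : ℕ) : ℝ) ≤
        (Fintype.card F + 1) + ∑ x, ((E x).card : ℝ) := by exact_mod_cast h1
    refine h2.trans (add_le_add le_rfl ?_)
    calc ∑ x, ((E x).card : ℝ) ≤ ∑ _x : Fˣ, s := Finset.sum_le_sum fun x _ => hE x
      _ = _ := by rw [Finset.sum_const, nsmul_eq_mul, Finset.card_univ]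

end Pool.Agent.J6H23.Rig
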