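import Pool.Agent.J6H23.Rig.Field

/-!
# Descent to the rational numbers

A Hankel matrix of order `N₁ N₂` over `ℚ` is a Hankel matrix of order `N₂` whose entries are
Hankel matrices of order `N₁`, and the latter are given by the elements of a number field `K` of
degree at least `2 N₁ - 1` which is generated by `y`.  An approximation over `K` for the order
`N₂`, followed by an approximation over `ℚ` for the order `N₁`, gives an approximation over `ℚ`.
-/

set_option autoImplicit false

namespace Pool.Agent.J6H23.Rig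

open Finset Matrix

variable {K : Type*} [Field K] [Algebra ℚ K] [FiniteDimensional ℚ K]

/-- functionals on a number field -/
lemma exists_functional (y : K) (D : ℕ) (hD : Module.finrank ℚ K = D)
    (hy : LinearIndependent ℚ fun u : Fin D => y ^ (u : ℕ)) :
    ∃ lam : K →ₗ[ℚ] ℚ, ∀ f : ℕ → ℚ, ∃ α : K, ∀ u < D, lam (α * y ^ u) = f u := by
  obtain ⟨lam, hlam⟩ : ∃ lam : K →ₗ[ℚ] ℚ, lam 1 ≠ 0 := by
    by_contra h
    push Not at h
    exact one_ne_zero ((Module.forall_dual_apply_eq_zero_iff ℚ (1 : K)).1 h)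
  refine ⟨lam, fun f => ?_⟩
  let T : K →ₗ[ℚ] (Fin D → ℚ) :=
    { toFun := fun α u => lam (α * y ^ (u : ℕ))
      map_add' := by intro a b; funext u; simp [add_mul]
      map_smul' := by intro c a; funext u; simp }
  have hcard : Fintype.card (Fin D) = Module.finrank ℚ K := by rw [hD, Fintype.card_fin]
  have hspan : Submodule.span ℚ (Set.range fun u : Fin D => y ^ (u : ℕ)) = ⊤ :=
    hy.span_eq_top_of_card_eq_finrank' hcard
  have hinj : Function.Injective T := by
    rw [injective_iff_map_eq_zero]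
    intro α hα
    by_contra h0
    have h1 : ∀ z : K, lam (α * z) = 0 := by
      intro z
      have hz : z ∈ Submodule.span ℚ (Set.range fun u : Fin D => y ^ (u : ℕ)) := by
        rw [hspan]; trivial
      induction hz using Submodule.span_induction with
      | mem z hz =>
        obtain ⟨u, rfl⟩ := hz
        exact congrFun hα u
      | zero => simp
      | add a b _ _ ha hb => rw [mul_add, map_add, ha, hb, add_zero]
      | smul c a _ ha => rw [mul_smul_comm, map_smul, ha, smul_zero]
    have := h1 α⁻¹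
    rw [mul_inv_cancel₀ h0] at this
    exact hlam this
  have hsurj : Function.Surjective T := by
    refine (LinearMap.injective_iff_surjective_of_finrank_eq_finrank ?_).1 hinj
    rw [hD, Module.finrank_fin_fun]
  obtain ⟨α, hα⟩ := hsurj fun u => f u
  exact ⟨α, fun u hu => congrFun hα ⟨u, hu⟩⟩

/-- **Descent.** -/
theorem descent (y : K) (D : ℕ) (hD : Module.finrank ℚ K = D)
    (hy : LinearIndependent ℚ fun u : Fin D => y ^ (u : ℕ)) {N₁ N₂ N : ℕ} {s₁ r₁ s₂ r₂ : ℝ}
    (h1 : Apx ℚ N₁ s₁ r₁) (h2 : Apx K N₂ s₂ r₂) (hN1 : 2 * N₁ ≤ D + 1) (hpos : 0 < N₁)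
    (hN : N ≤ N₁ * N₂) : Apx ℚ N (s₂ * s₁) (r₂ * D + N₂ * r₁) := by
  classical
  obtain ⟨lam, hlam⟩ := exists_functional y D hD hy
  let b : Module.Basis (Fin D) ℚ K := Module.finBasisOfFinrankEq ℚ K hD
  have hb : ∀ x z : K, lam (x * z) = ∑ d, b.repr x d * lam (b d * z) := by
    intro x z
    conv_lhs => rw [← b.sum_repr x, Finset.sum_mul, map_sum]
    exact Finset.sum_congr rfl fun d _ => by rw [smul_mul_assoc, map_smul, smul_eq_mul]
  obtain ⟨E1, ρ1, i1, B1, B1', hE1, hρ1, hA1⟩ := h1
  obtain ⟨E2, ρ2, i2, B2, B2', hE2, hρ2, hA2⟩ := h2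
  let q : Fin N → Fin N₂ := fun i => ⟨i / N₁, by
    rw [Nat.div_lt_iff_lt_mul hpos, mul_comm]; omega⟩
  let t : Fin N → Fin N₁ := fun i => ⟨i % N₁, Nat.mod_lt _ hpos⟩
  have hqt : ∀ i : Fin N, (i : ℕ) = t i + N₁ * q i := by
    intro i
    simp only [q, t]
    exact (Nat.mod_add_div _ _).symm
  refine ⟨fun i => Finset.univ.filter fun j => q j ∈ E2 (q i) ∧ t j ∈ E1 (t i),
    (ρ2 × Fin D) ⊕ (Fin N₂ × ρ1), inferInstance,
    Matrix.of fun a j => Sum.elim
      (fun l => lam (b l.2 * (B2 l.1 (q j) * y ^ ((t j : Fin N₁) : ℕ))))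
      (fun l => if l.1 = q j then B1 l.2 (t j) else 0) a,
    Matrix.of fun i a => Sum.elim
      (fun l => lam (b l.2 * (B2' (q i) l.1 * y ^ ((t i : Fin N₁) : ℕ))))
      (fun l => if l.1 = q i then B1' (t i) l.2 else 0) a, ?_, ?_, ?_⟩
  · intro i
    have h3 : (Finset.univ.filter fun j => q j ∈ E2 (q i) ∧ t j ∈ E1 (t i)).card ≤
        (E2 (q i)).card * (E1 (t i)).card := by
      rw [← Finset.card_product]
      refine Finset.card_le_card_of_injOn (fun j => (q j, t j)) ?_ ?_
      · intro j hj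
        rw [Finset.mem_coe, Finset.mem_filter] at hj
        rw [Finset.mem_coe, Finset.mem_product]
        exact hj.2
      · intro a _ c _ hac
        have e1 : q a = q c := (Prod.ext_iff.1 hac).1
        have e2 : t a = t c := (Prod.ext_iff.1 hac).2
        apply Fin.ext
        rw [hqt a, hqt c, e1, e2]
    calc ((Finset.univ.filter fun j => q j ∈ E2 (q i) ∧ t j ∈ E1 (t i)).card : ℝ) ≤
          ((E2 (q i)).card : ℝ) * (E1 (t i)).card := by exact_mod_cast h3
      _ ≤ s₂ * s₁ := by
          refine mul_le_mul (hE2 _) (hE1 _) (Nat.cast_nonneg _) ?_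
          exact (Nat.cast_nonneg _).trans (hE2 (q i))
  · rw [Fintype.card_sum, Fintype.card_prod, Fintype.card_prod, Fintype.card_fin,
      Fintype.card_fin]
    push_cast
    exact add_le_add (mul_le_mul_of_nonneg_right hρ2 (Nat.cast_nonneg _))
      (mul_le_mul_of_nonneg_left hρ1 (Nat.cast_nonneg _))
  · intro h
    choose α hα using fun t : ℕ => hlam fun u => h (u + N₁ * t)
    obtain ⟨Z2, A2, C2, hZ2, hh2⟩ := hA2 α
    have key : ∀ a c : Fin N₂, ∃ (Z : Matrix (Fin N₁) (Fin N₁) ℚ) (A : Matrix (Fin N₁) ρ1 ℚ)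
        (C : Matrix ρ1 (Fin N₁) ℚ), (∀ i j, Z i j ≠ 0 → j ∈ E1 i ∧ c ∈ E2 a) ∧
        ∀ i j : Fin N₁, lam (Z2 a c * y ^ ((i : ℕ) + j)) = (Z + A * B1 + B1' * C) i j := by
      intro a c
      by_cases h0 : Z2 a c = 0
      · refine ⟨0, 0, 0, fun i j hij => absurd rfl hij, fun i j => ?_⟩
        rw [h0]
        simp
      · obtain ⟨Z, A, C, hZ, hh⟩ := hA1 fun u => lam (Z2 a c * y ^ u)
        exact ⟨Z, A, C, fun i j hij => ⟨hZ i j hij, hZ2 a c h0⟩, hh⟩
    choose Z1 A1 C1 hZ1 hh1 using key
    refine ⟨Matrix.of fun i j => Z1 (q i) (q j) (t i) (t j),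
      Matrix.of fun i a => Sum.elim
        (fun l => b.repr (A2 (q i) l.1 * y ^ ((t i : Fin N₁) : ℕ)) l.2)
        (fun l => A1 (q i) l.1 (t i) l.2) a,
      Matrix.of fun a j => Sum.elim
        (fun l => b.repr (C2 l.1 (q j) * y ^ ((t j : Fin N₁) : ℕ)) l.2)
        (fun l => C1 l.1 (q j) l.2 (t j)) a, ?_, ?_⟩
    · intro i j hij
      obtain ⟨h3, h4⟩ := hZ1 _ _ _ _ hij
      exact Finset.mem_filter.2 ⟨Finset.mem_univ _, h4, h3⟩
    · intro i j
      have hlt : (t i : ℕ) + t j < D := by
        have := (t i).2; have := (t j).2; omega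
      have e0 : h (i + j) = lam (α (q i + q j) * y ^ ((t i : ℕ) + t j)) := by
        rw [hα _ _ hlt]
        congr 1
        rw [hqt i, hqt j]
        ring
      have e1 : lam (α (q i + q j) * y ^ ((t i : ℕ) + t j)) =
          lam (Z2 (q i) (q j) * y ^ ((t i : ℕ) + t j)) +
          ∑ l, lam ((A2 (q i) l * y ^ (t i : ℕ)) * (B2 l (q j) * y ^ (t j : ℕ))) +
          ∑ l, lam ((C2 l (q j) * y ^ (t j : ℕ)) * (B2' (q i) l * y ^ (t i : ℕ))) := by
        rw [hh2, Matrix.add_apply, Matrix.add_apply, Matrix.mul_apply, Matrix.mul_apply, add_mul,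
          add_mul, Finset.sum_mul, Finset.sum_mul, map_add, map_add, map_sum, map_sum]
        congr 1
        · congr 1
          refine Finset.sum_congr rfl fun l _ => ?_
          congr 1
          rw [pow_add]; ring
        · refine Finset.sum_congr rfl fun l _ => ?_
          congr 1
          rw [pow_add]; ring
      rw [e0, e1, hh1]
      simp only [hb (A2 _ _ * _), hb (C2 _ _ * _)]
      simp only [Matrix.add_apply, Matrix.mul_apply, Matrix.of_apply, Fintype.sum_sum_type,
        Sum.elim_inl, Sum.elim_inr, Fintype.sum_prod_type]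
      have e2 : ∀ f : Fin N₂ → ρ1 → ℚ, ∑ x, ∑ l, f x l * (if x = q j then B1 l (t j) else 0) =
          ∑ l, f (q j) l * B1 l (t j) := by
        intro f
        rw [Finset.sum_eq_single (q j)]
        · simp
        · intro x _ hx
          simp [hx]
        · intro h; exact absurd (Finset.mem_univ _) h
      have e3 : ∀ f : Fin N₂ → ρ1 → ℚ, ∑ x, ∑ l, (if x = q i then B1' (t i) l else 0) * f x l =
          ∑ l, B1' (t i) l * f (q i) l := by
        intro f
        rw [Finset.sum_eq_single (q i)]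
        · simp
        · intro x _ hx
          simp [hx]
        · intro h; exact absurd (Finset.mem_univ _) h
      rw [e2 fun x l => A1 (q i) x (t i) l, e3 fun x l => C1 x (q j) l (t j)]
      have e4 : ∀ l : ρ2, ∑ d, b.repr (C2 l (q j) * y ^ (t j : ℕ)) d *
          lam (b d * (B2' (q i) l * y ^ (t i : ℕ))) =
          ∑ d, lam (b d * (B2' (q i) l * y ^ (t i : ℕ))) *
            b.repr (C2 l (q j) * y ^ (t j : ℕ)) d := fun l =>
        Finset.sum_congr rfl fun d _ => mul_comm _ _
      simp only [e4]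
      ring

/-- smaller orders and weaker bounds -/
lemma Apx.mono {F : Type*} [Field F] {N N' : ℕ} {s s' r r' : ℝ} (h : Apx F N s r) (hN : N' ≤ N)
    (hs : s ≤ s') (hr : r ≤ r') : Apx F N' s' r' := by
  classical
  obtain ⟨E, ρ, i1, B, B', hE, hρ, hA⟩ := h
  let c : Fin N' → Fin N := Fin.castLE hN
  have hc : Function.Injective c := Fin.castLE_injective hN
  refine ⟨fun i => Finset.univ.filter fun j => c j ∈ E (c i), ρ, i1,
    Matrix.of fun a j => B a (c j), Matrix.of fun i a => B' (c i) a, ?_, hρ.trans hr, ?_⟩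
  · intro i
    refine le_trans ?_ ((hE (c i)).trans hs)
    have : (Finset.univ.filter fun j => c j ∈ E (c i)).card ≤ (E (c i)).card := by
      refine Finset.card_le_card_of_injOn c ?_ hc.injOn
      intro j hj
      rw [Finset.mem_coe, Finset.mem_filter] at hj
      exact hj.2
    exact_mod_cast this
  · intro h
    obtain ⟨Z, A, C, hZ, hh⟩ := hA h
    refine ⟨Matrix.of fun i j => Z (c i) (c j), Matrix.of fun i a => A (c i) a,
      Matrix.of fun a j => C a (c j),
      fun i j hij => Finset.mem_filter.2 ⟨Finset.mem_univ _, hZ _ _ hij⟩, fun i j => ?_⟩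
    have := hh (c i) (c j)
    simp only [Matrix.add_apply, Matrix.mul_apply, Matrix.of_apply] at this ⊢
    exact this

/-- the trivial approximation -/
lemma apx_trivial (F : Type*) [Field F] (N : ℕ) : Apx F N N 0 := by
  refine ⟨fun _ => Finset.univ, Empty, inferInstance, 0, 0, fun i => by simp, by simp, ?_⟩
  intro h
  refine ⟨Matrix.of fun i j => h (i + j), 0, 0, fun i j _ => Finset.mem_univ _, fun i j => ?_⟩
  simp

end Pool.Agent.J6H23.Rig
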