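import Pool.Agent.J6H23.Rig.Kron

/-!
# Hankel matrices over a field with roots of unity

`Apx F N s r`: all Hankel matrices `h (i + j)` of order `N` over `F` are the sums of a matrix
supported on a fixed set of positions with at most `s` positions in each row, and of matrices
`A * B` and `B' * C` with fixed `B`, `B'` with at most `r` rows, resp. columns.
-/

set_option autoImplicit false
set_option linter.unusedSectionVars false

namespace Pool.Agent.J6H23.Rig

open Finset Matrix

/-- uniform approximability of the Hankel matrices of order `N` over `F`: `E i` is the set of the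
positions in row `i` where the sparse part may be different from zero -/
def Apx (F : Type*) [Field F] (N : ℕ) (s r : ℝ) : Prop :=
  ∃ (E : Fin N → Finset (Fin N)) (ρ : Type) (_ : Fintype ρ) (B : Matrix ρ (Fin N) F)
    (B' : Matrix (Fin N) ρ F),
    (∀ i, ((E i).card : ℝ) ≤ s) ∧ (Fintype.card ρ : ℝ) ≤ r ∧
    ∀ h : ℕ → F, ∃ (Z : Matrix (Fin N) (Fin N) F) (A : Matrix (Fin N) ρ F)
      (C : Matrix ρ (Fin N) F),
      (∀ i j, Z i j ≠ 0 → j ∈ E i) ∧ ∀ i j : Fin N, h (i + j) = (Z + A * B + B' * C) i j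

section Fourier

variable {K : Type*} [Field K]

lemma sum_char {m : ℕ} [NeZero m] {ψ : AddChar (ZMod m) K} (hψ : ψ.IsPrimitive) (c : ZMod m) :
    ∑ y, ψ (y * c) = if c = 0 then (m : K) else 0 := by
  have := AddChar.sum_mulShift c hψ
  rw [ZMod.card] at this
  rw [this]
  split_ifs <;> simp

/-- the discrete Hartley matrix -/
def hart {m : ℕ} (ψ : AddChar (ZMod m) K) (I : K) : Matrix (ZMod m) (ZMod m) K :=
  Matrix.of fun x y => (1 - I) / 2 * ψ (x * y) + (1 + I) / 2 * ψ (-(x * y))

/-- the discrete Fourier matrix -/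
def four {m : ℕ} (ψ : AddChar (ZMod m) K) : Matrix (ZMod m) (ZMod m) K :=
  Matrix.of fun x y => ψ (x * y)

/-- the reflection part -/
def refl {m : ℕ} (I c : K) : Matrix (ZMod m) (ZMod m) K :=
  Matrix.of fun u v => c * ((if u = v then (1 + I) / 2 else 0) + (if u = -v then (1 - I) / 2 else 0))

variable [CharZero K]

lemma hart_mul {m : ℕ} [NeZero m] {ψ : AddChar (ZMod m) K} (hψ : ψ.IsPrimitive) {I : K}
    (hI : I * I = -1) : hart ψ I * hart ψ I = (m : K) • (1 : Matrix (ZMod m) (ZMod m) K) := by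
  ext x z
  rw [Matrix.mul_apply, Matrix.smul_apply, Matrix.one_apply, smul_eq_mul]
  have e : ∀ y : ZMod m, hart ψ I x y * hart ψ I y z =
      (1 - I) / 2 * ((1 - I) / 2) * ψ (y * (x + z)) +
      (1 + I) / 2 * ((1 + I) / 2) * ψ (y * (-(x + z))) +
      (1 - I) / 2 * ((1 + I) / 2) * ψ (y * (x - z)) +
      (1 - I) / 2 * ((1 + I) / 2) * ψ (y * (z - x)) := by
    intro y
    simp only [hart, Matrix.of_apply]
    have e1 : ψ (y * (x + z)) = ψ (x * y) * ψ (y * z) := by
      rw [← AddChar.map_add_eq_mul]; congr 1; ring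
    have e2 : ψ (y * (-(x + z))) = ψ (-(x * y)) * ψ (-(y * z)) := by
      rw [← AddChar.map_add_eq_mul]; congr 1; ring
    have e3 : ψ (y * (x - z)) = ψ (x * y) * ψ (-(y * z)) := by
      rw [← AddChar.map_add_eq_mul]; congr 1; ring
    have e4 : ψ (y * (z - x)) = ψ (-(x * y)) * ψ (y * z) := by
      rw [← AddChar.map_add_eq_mul]; congr 1; ring
    rw [e1, e2, e3, e4]
    ring
  simp only [e]
  rw [Finset.sum_add_distrib, Finset.sum_add_distrib, Finset.sum_add_distrib]
  simp only [← Finset.mul_sum, sum_char hψ, neg_eq_zero, sub_eq_zero]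
  have h2 : (2 : K) ≠ 0 := two_ne_zero
  have hI2 : I ^ 2 = -1 := by rw [sq]; exact hI
  have c1 : (1 - I) / 2 * ((1 - I) / 2) + (1 + I) / 2 * ((1 + I) / 2) = (0 : K) := by
    field_simp
    ring_nf
    rw [hI2]; ring
  have c2 : (1 - I) / 2 * ((1 + I) / 2) + (1 - I) / 2 * ((1 + I) / 2) = (1 : K) := by
    field_simp
    ring_nf
    rw [hI2]; ring
  by_cases hxz : x = z
  · subst hxz
    simp only [if_true]
    by_cases h0 : x + x = 0
    · rw [if_pos h0]
      linear_combination (m : K) * c1 + (m : K) * c2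
    · rw [if_neg h0]
      linear_combination (m : K) * c2
  · have hzx : ¬ z = x := fun h => hxz h.symm
    simp only [if_neg hxz, if_neg hzx]
    by_cases h0 : x + z = 0
    · rw [if_pos h0]
      linear_combination (m : K) * c1
    · rw [if_neg h0]
      ring

lemma four_eq {m : ℕ} [NeZero m] (ψ : AddChar (ZMod m) K) {I : K} (hI : I * I = -1) {c : K}
    (hc : c ≠ 0) : four ψ = (c⁻¹ • hart ψ I) * refl I c := by
  ext x y
  rw [Matrix.mul_apply]
  have h2 : (2 : K) ≠ 0 := two_ne_zero
  have hI2 : I ^ 2 = -1 := by rw [sq]; exact hI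
  have e : ∀ u : ZMod m, (c⁻¹ • hart ψ I) x u * refl I c u y =
      (if u = y then hart ψ I x u * ((1 + I) / 2) else 0) +
      (if u = -y then hart ψ I x u * ((1 - I) / 2) else 0) := by
    intro u
    simp only [refl, Matrix.of_apply, Matrix.smul_apply, smul_eq_mul]
    split_ifs <;> field_simp <;> ring
  simp only [e]
  rw [Finset.sum_add_distrib, Finset.sum_ite_eq', Finset.sum_ite_eq']
  simp only [Finset.mem_univ, if_true, hart, four, Matrix.of_apply, mul_neg, neg_neg]
  field_simp
  ring_nf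
  rw [hI2]
  ring

lemma four_mul {m : ℕ} [NeZero m] {ψ : AddChar (ZMod m) K} (hψ : ψ.IsPrimitive) :
    four ψ * (Matrix.of fun x y => ψ (-(x * y))) =
      (m : K) • (1 : Matrix (ZMod m) (ZMod m) K) := by
  ext x z
  rw [Matrix.mul_apply, Matrix.smul_apply, Matrix.one_apply, smul_eq_mul]
  have e : ∀ y : ZMod m, four ψ x y * (Matrix.of fun x y => ψ (-(x * y))) y z =
      ψ (y * (x - z)) := by
    intro y
    simp only [four, Matrix.of_apply]
    rw [← AddChar.map_add_eq_mul]; congr 1; ring
  simp only [e, sum_char hψ, sub_eq_zero]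
  split_ifs <;> simp

end Fourier

section Group

variable {ι : Type*} [Fintype ι] [DecidableEq ι] {K : Type*} [Field K]

lemma kron_smul {V' V'' : ι → Type*} (c : ι → K) (A : ∀ j, Matrix (V' j) (V'' j) K) :
    kron (fun j => c j • A j) = (∏ j, c j) • kron A := by
  ext x y
  simp only [kron, Matrix.smul_apply, smul_eq_mul, Finset.prod_mul_distrib]

variable {m : ι → ℕ} [∀ j, NeZero (m j)]

/-- the number of the coordinates for which `x j` is not `± y j` -/
def sd (x y : ∀ j, ZMod (m j)) : ℕ := (Finset.univ.filter fun j => x j ≠ y j ∧ x j ≠ -y j).card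

lemma sd_le_add (x y z : ∀ j, ZMod (m j)) : sd x z ≤ sd x y + sd z y := by
  unfold sd
  rw [← Finset.card_union_add_card_inter]
  refine le_add_right (Finset.card_le_card fun j hj => ?_)
  rw [Finset.mem_filter] at hj
  rw [Finset.mem_union, Finset.mem_filter, Finset.mem_filter]
  by_contra hcon
  push Not at hcon
  obtain ⟨h1, h2⟩ := hcon
  have h1' := h1 (Finset.mem_univ j)
  have h2' := h2 (Finset.mem_univ j)
  obtain ⟨-, hj1, hj2⟩ := hj
  by_cases a : x j = y j
  · by_cases b : z j = y j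
    · exact hj1 (a.trans b.symm)
    · have := h2' b
      apply hj2
      rw [a, this, neg_neg]
  · have a' := h1' a
    by_cases b : z j = y j
    · exact hj2 (by rw [a', b])
    · have := h2' b
      exact hj1 (by rw [a', this])

lemma sd_le_hamming (x y u : ∀ j, ZMod (m j)) (h : ∀ j, u j = y j ∨ u j = -y j) :
    sd x y ≤ hammingDist x u := by
  unfold sd hammingDist
  refine Finset.card_le_card fun j hj => ?_
  rw [Finset.mem_filter] at hj ⊢
  refine ⟨hj.1, fun hxu => ?_⟩
  rcases h j with h | h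
  · exact hj.2.1 (hxu.trans h)
  · exact hj.2.2 (hxu.trans h)

lemma card_sd_le (M w : ℕ) (hM : ∀ j, m j ≤ M) (hM1 : 1 ≤ M) (x : ∀ j, ZMod (m j)) :
    (Finset.univ.filter fun z => sd x z ≤ w).card ≤ 4 ^ Fintype.card ι * M ^ w := by
  have hsub : (Finset.univ.filter fun z => sd x z ≤ w) ⊆
      ((Finset.univ : Finset ι).powerset.filter fun S => S.card ≤ w).biUnion fun S =>
        Fintype.piFinset fun j => if j ∈ S then (Finset.univ : Finset (ZMod (m j)))
          else {x j, -x j} := by
    intro z hz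
    rw [Finset.mem_filter] at hz
    rw [Finset.mem_biUnion]
    refine ⟨Finset.univ.filter fun j => x j ≠ z j ∧ x j ≠ -z j, ?_, ?_⟩
    · rw [Finset.mem_filter]
      exact ⟨Finset.mem_powerset.2 (Finset.filter_subset _ _), hz.2⟩
    · rw [Fintype.mem_piFinset]
      intro j
      split_ifs with h
      · exact Finset.mem_univ _
      · rw [Finset.mem_filter] at h
        push Not at h
        have h := h (Finset.mem_univ j)
        rw [Finset.mem_insert, Finset.mem_singleton]
        by_cases a : x j = z j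
        · left; exact a.symm
        · right
          rw [h a, neg_neg]
  refine (Finset.card_le_card hsub).trans (Finset.card_biUnion_le.trans ?_)
  have h1 : ∀ S ∈ ((Finset.univ : Finset ι).powerset.filter fun S => S.card ≤ w),
      (Fintype.piFinset fun j => if j ∈ S then (Finset.univ : Finset (ZMod (m j)))
          else {x j, -x j}).card ≤ 2 ^ Fintype.card ι * M ^ w := by
    intro S hS
    rw [Fintype.card_piFinset]
    have h2 : ∀ j, (if j ∈ S then (Finset.univ : Finset (ZMod (m j))) else {x j, -x j}).card ≤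
        2 * (if j ∈ S then M else 1) := by
      intro j
      split_ifs
      · rw [Finset.card_univ, ZMod.card]
        have := hM j
        omega
      · exact Finset.card_le_two
    calc ∏ j, (if j ∈ S then (Finset.univ : Finset (ZMod (m j))) else {x j, -x j}).card
        ≤ ∏ j, 2 * (if j ∈ S then M else 1) := Finset.prod_le_prod' fun j _ => h2 j
      _ = 2 ^ Fintype.card ι * M ^ S.card := by
          rw [Finset.prod_mul_distrib, Finset.prod_const, Finset.card_univ]
          congr 1
          rw [Finset.prod_ite_mem, Finset.univ_inter, Finset.prod_const]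
      _ ≤ _ := Nat.mul_le_mul_left _
          (Nat.pow_le_pow_right hM1 (Finset.mem_filter.1 hS).2)
  calc _ ≤ ∑ _S ∈ ((Finset.univ : Finset ι).powerset.filter fun S => S.card ≤ w),
        2 ^ Fintype.card ι * M ^ w := Finset.sum_le_sum h1
    _ = ((Finset.univ : Finset ι).powerset.filter fun S => S.card ≤ w).card *
        (2 ^ Fintype.card ι * M ^ w) := by rw [Finset.sum_const, smul_eq_mul]
    _ ≤ 2 ^ Fintype.card ι * (2 ^ Fintype.card ι * M ^ w) := by
        refine Nat.mul_le_mul_right _ ?_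
        refine (Finset.card_le_card (Finset.filter_subset _ _)).trans ?_
        rw [Finset.card_powerset, Finset.card_univ]
    _ = _ := by
        rw [show (4 : ℕ) = 2 * 2 from rfl, mul_pow]; ring

end Group

section Main

variable {ι : Type} [Fintype ι] [DecidableEq ι] {K : Type*} [Field K] [CharZero K]
  {m : ι → ℕ} [∀ j, NeZero (m j)]

/-- The Hankel matrices of a product of cyclic groups of square orders. -/
theorem group_apx (s : ι → ℕ) (hs : ∀ j, m j = s j ^ 2) (ζ : ι → K)
    (hζ : ∀ j, IsPrimitiveRoot (ζ j) (m j)) (I : K) (hI : I * I = -1) (w : ℕ) (hw : 0 < w) :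
    ∃ (B : Finset (∀ j, ZMod (m j))) (U : Matrix (∀ j, ZMod (m j)) B K),
      B.card * w ^ 2 ≤ 4 * ((∏ j, m j) * Fintype.card ι) ∧
      ∀ g : (∀ j, ZMod (m j)) → K, ∃ (Z : Matrix (∀ j, ZMod (m j)) (∀ j, ZMod (m j)) K)
        (A : Matrix (∀ j, ZMod (m j)) B K) (C : Matrix B (∀ j, ZMod (m j)) K),
        (∀ x y, Z x y ≠ 0 → sd x y ≤ 2 * w) ∧
        ∀ x y, g (x + y) = (Z + A * U.transpose + U * C) x y := by
  classical
  have hm0 : ∀ j, (m j : K) ≠ 0 := fun j => Nat.cast_ne_zero.2 (NeZero.ne (m j))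
  have hs0 : ∀ j, (s j : K) ≠ 0 := by
    intro j h
    apply hm0 j
    rw [hs j]
    push_cast
    rw [h]; ring
  let ψ : ∀ j, AddChar (ZMod (m j)) K := fun j => AddChar.zmodChar (m j) (hζ j).pow_eq_one
  have hψ : ∀ j, (ψ j).IsPrimitive := fun j =>
    AddChar.zmodChar_primitive_of_primitive_root (m j) (hζ j)
  let A0 : ∀ j, Matrix (ZMod (m j)) (ZMod (m j)) K := fun j => (s j : K)⁻¹ • hart (ψ j) I
  have hA0 : ∀ j, A0 j * A0 j = 1 := by
    intro j
    simp only [A0]
    rw [Matrix.smul_mul, Matrix.mul_smul, hart_mul (hψ j) hI, smul_smul, smul_smul, hs j]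
    have : (s j : K)⁻¹ * (s j : K)⁻¹ * ((s j ^ 2 : ℕ) : K) = 1 := by
      push_cast
      have := hs0 j
      field_simp
    rw [this, one_smul]
  obtain ⟨Z, B, U, U', hZ, hAZ, hB⟩ := kron_inv A0 hA0 w hw
  have hcard : Fintype.card (∀ j, ZMod (m j)) = ∏ j, m j := by
    rw [Fintype.card_pi]; simp only [ZMod.card]
  rw [hcard] at hB
  refine ⟨B, U, hB, fun g => ?_⟩
  -- the Fourier matrix
  let S : Matrix (∀ j, ZMod (m j)) (∀ j, ZMod (m j)) K := kron fun j => refl I (s j : K)
  let Fm : Matrix (∀ j, ZMod (m j)) (∀ j, ZMod (m j)) K := kron fun j => four (ψ j)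
  have hF : Fm = Z * S + U * (U' * S) := by
    have e1 : Fm = kron A0 * S := by
      simp only [Fm, S]
      rw [kron_mul]
      congr 1
      funext j
      exact four_eq (ψ j) hI (hs0 j)
    rw [e1, hAZ, Matrix.add_mul, Matrix.mul_assoc]
  have hFT : Fm.transpose = Fm := by
    ext x y
    simp only [Matrix.transpose_apply, Fm, kron, four, Matrix.of_apply]
    exact Finset.prod_congr rfl fun j _ => by rw [mul_comm]
  have hSsupp : ∀ u y, S u y ≠ 0 → ∀ j, u j = y j ∨ u j = -y j := by
    intro u y h j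
    by_contra hcon
    push Not at hcon
    apply h
    refine Finset.prod_eq_zero (Finset.mem_univ j) ?_
    simp only [refl, Matrix.of_apply, if_neg hcon.1, if_neg hcon.2]
    ring
  have hZS : ∀ x y, (Z * S) x y ≠ 0 → sd x y ≤ w := by
    intro x y h
    rw [Matrix.mul_apply] at h
    obtain ⟨u, -, hu⟩ := Finset.exists_ne_zero_of_sum_ne_zero h
    exact (sd_le_hamming x y u (hSsupp u y (right_ne_zero_of_mul hu))).trans
      (hZ x u (left_ne_zero_of_mul hu))
  -- Fourier inversion
  let Fb : Matrix (∀ j, ZMod (m j)) (∀ j, ZMod (m j)) K :=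
    kron fun j => Matrix.of fun x y => ψ j (-(x * y))
  have hFF : Fm * Fb = (∏ j, (m j : K)) • (1 : Matrix (∀ j, ZMod (m j)) (∀ j, ZMod (m j)) K) := by
    simp only [Fm, Fb]
    rw [kron_mul]
    simp only [four_mul (hψ _)]
    rw [kron_smul, kron_one]
  have hP0 : (∏ j, (m j : K)) ≠ 0 := Finset.prod_ne_zero_iff.2 fun j _ => hm0 j
  let D : (∀ j, ZMod (m j)) → K := (∏ j, (m j : K))⁻¹ • Fb.mulVec g
  have hD : ∀ x, ∑ a, Fm x a * D a = g x := by
    intro x
    have e1 : Fm.mulVec D = g := by
      simp only [D]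
      rw [Matrix.mulVec_smul, Matrix.mulVec_mulVec, hFF, Matrix.smul_mulVec, Matrix.one_mulVec,
        smul_smul, inv_mul_cancel₀ hP0, one_smul]
    exact congrFun e1 x
  have hFadd : ∀ x y a, Fm x a * Fm a y = Fm (x + y) a := by
    intro x y a
    simp only [Fm, kron, four, Matrix.of_apply]
    rw [← Finset.prod_mul_distrib]
    refine Finset.prod_congr rfl fun j _ => ?_
    rw [← AddChar.map_add_eq_mul, Pi.add_apply]
    congr 1; ring
  have hT : ∀ x y, g (x + y) = (Fm * Matrix.diagonal D * Fm) x y := by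
    intro x y
    rw [← hD, Matrix.mul_apply]
    refine Finset.sum_congr rfl fun a _ => ?_
    rw [Matrix.mul_diagonal, ← hFadd]
    ring
  set Zf := Z * S with hZf
  set Vf := U' * S with hVf
  have hF2 : Fm = Zf.transpose + Vf.transpose * U.transpose := by
    rw [← Matrix.transpose_mul, ← Matrix.transpose_add, ← hF, hFT]
  refine ⟨Zf * Matrix.diagonal D * Zf.transpose, Zf * Matrix.diagonal D * Vf.transpose,
    Vf * Matrix.diagonal D * Fm, ?_, ?_⟩
  · intro x y h
    rw [Matrix.mul_apply] at h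
    obtain ⟨u, -, hu⟩ := Finset.exists_ne_zero_of_sum_ne_zero h
    rw [Matrix.mul_diagonal, Matrix.transpose_apply] at hu
    have h1 := hZS x u (left_ne_zero_of_mul (left_ne_zero_of_mul hu))
    have h2 := hZS y u (right_ne_zero_of_mul hu)
    have := sd_le_add x u y
    omega
  · intro x y
    have hfin : Fm * Matrix.diagonal D * Fm = Zf * Matrix.diagonal D * Zf.transpose +
        Zf * Matrix.diagonal D * Vf.transpose * U.transpose +
        U * (Vf * Matrix.diagonal D * Fm) := by
      calc Fm * Matrix.diagonal D * Fm = (Zf + U * Vf) * Matrix.diagonal D * Fm := by rw [← hF]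
        _ = Zf * Matrix.diagonal D * Fm + U * (Vf * Matrix.diagonal D * Fm) := by
            simp only [Matrix.add_mul, Matrix.mul_assoc]
        _ = Zf * Matrix.diagonal D * (Zf.transpose + Vf.transpose * U.transpose) +
            U * (Vf * Matrix.diagonal D * Fm) := by rw [← hF2]
        _ = _ := by simp only [Matrix.mul_add, Matrix.mul_assoc]
    rw [hT, hfin]

/-- **Hankel matrices over a field with roots of unity.** -/
theorem apx_field (s : ι → ℕ) (hs : ∀ j, m j = s j ^ 2)
    (hcop : Pairwise fun i j => Nat.Coprime (m i) (m j)) (ζ : ι → K)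
    (hζ : ∀ j, IsPrimitiveRoot (ζ j) (m j)) (I : K) (hI : I * I = -1) (w : ℕ) (hw : 0 < w)
    (M : ℕ) (hM : ∀ j, m j ≤ M) (hM1 : 1 ≤ M) (N : ℕ) (hN : 2 * N ≤ (∏ j, m j) + 1) :
    Apx K N (4 ^ Fintype.card ι * M ^ (2 * w))
      (4 * ((∏ j, m j : ℕ) * Fintype.card ι) / w ^ 2) := by
  obtain ⟨B, U, hB, hU⟩ := group_apx s hs ζ hζ I hI w hw
  let φ : ℕ → ∀ j, ZMod (m j) := fun t j => (t : ZMod (m j))
  have hφadd : ∀ a b, φ (a + b) = φ a + φ b := by
    intro a b; funext j; simp [φ]
  have hinj : Set.InjOn φ (Set.Iio (∏ j, m j)) := by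
    intro a ha b hb hab
    have h1 : ∀ j, a ≡ b [MOD m j] := fun j => (ZMod.natCast_eq_natCast_iff a b (m j)).1
      (congrFun hab j)
    have h2 : ∀ j, ((m j : ℕ) : ℤ) ∣ (b : ℤ) - a := fun j => (Nat.modEq_iff_dvd).1 (h1 j)
    have h3 : ((∏ j, m j : ℕ) : ℤ) ∣ (b : ℤ) - a := by
      push_cast
      refine Finset.prod_dvd_of_coprime ?_ fun j _ => h2 j
      intro i _ j _ hij
      exact Nat.isCoprime_iff_coprime.2 (hcop hij)
    have h4 : a ≡ b [MOD ∏ j, m j] := Nat.modEq_iff_dvd.2 h3
    exact Nat.ModEq.eq_of_lt_of_lt h4 ha hb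
  have hNlt : ∀ i j : Fin N, (i : ℕ) + j ∈ Set.Iio (∏ j, m j) := by
    intro i j
    rw [Set.mem_Iio]
    omega
  have hNlt' : ∀ i : Fin N, (i : ℕ) ∈ Set.Iio (∏ j, m j) := by
    intro i
    rw [Set.mem_Iio]
    omega
  refine ⟨fun i => Finset.univ.filter fun j => sd (φ i) (φ j) ≤ 2 * w, B, inferInstance,
    Matrix.of fun b i => U (φ i) b, Matrix.of fun i b => U (φ i) b, ?_, ?_, ?_⟩
  · intro i
    have h1 : (Finset.univ.filter fun j : Fin N => sd (φ i) (φ j) ≤ 2 * w).card ≤
        4 ^ Fintype.card ι * M ^ (2 * w) := by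
      refine le_trans ?_ (card_sd_le M (2 * w) hM hM1 (φ i))
      refine Finset.card_le_card_of_injOn (fun j => φ j) ?_ ?_
      · intro j hj
        rw [Finset.mem_coe, Finset.mem_filter] at hj ⊢
        exact ⟨Finset.mem_univ _, hj.2⟩
      · intro a _ b _ hab
        exact Fin.ext (hinj (hNlt' a) (hNlt' b) hab)
    exact_mod_cast h1
  · rw [Fintype.card_coe]
    have hw' : (0 : ℝ) < (w : ℝ) ^ 2 := by positivity
    rw [le_div_iff₀ hw']
    exact_mod_cast hB
  · intro h
    let g : (∀ j, ZMod (m j)) → K := fun z => h (Function.invFunOn φ (Set.Iio (∏ j, m j)) z)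
    obtain ⟨Z, A, C, hZ, hg⟩ := hU g
    refine ⟨Matrix.of fun i j => Z (φ i) (φ j), Matrix.of fun i b => A (φ i) b,
      Matrix.of fun b j => C b (φ j),
      fun i j hij => Finset.mem_filter.2 ⟨Finset.mem_univ _, hZ _ _ hij⟩, fun i j => ?_⟩
    have h1 : h (i + j) = g (φ i + φ j) := by
      simp only [g]
      rw [← hφadd, hinj.leftInvOn_invFunOn (hNlt i j)]
    rw [h1, hg]
    simp only [Matrix.add_apply, Matrix.mul_apply, Matrix.of_apply, Matrix.transpose_apply]

end Main

end Pool.Agent.J6H23.Rig
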