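import Pool.Agent.J6H23.Rig.Border

/-!
# The choice of the parameters
-/

set_option autoImplicit false

namespace Pool.Agent.J6H23.Rig

open Finset Matrix Filter Topology

lemma exists_ell (A : ℕ) (C : ℝ) : ∃ l₀ : ℕ, ∀ l, l₀ ≤ l →
    A ≤ l ^ 2 ∧ A * l ^ 6 ≤ 2 ^ l ∧ 12 * C ≤ l ∧ 5 ≤ l := by
  have h1 : Tendsto (fun n : ℕ => (n : ℝ) ^ 6 / (2 : ℝ) ^ n) atTop (𝓝 0) :=
    tendsto_pow_const_div_const_pow_of_one_lt 6 (by norm_num)
  have h2 : ∀ᶠ n : ℕ in atTop, (n : ℝ) ^ 6 / (2 : ℝ) ^ n < 1 / (A + 1) :=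
    h1.eventually_lt_const (by positivity)
  obtain ⟨l₁, hl₁⟩ := eventually_atTop.1 h2
  obtain ⟨l₂, hl₂⟩ := exists_nat_ge (12 * C)
  refine ⟨max (max l₁ l₂) (max A 5), fun l hl => ?_⟩
  have a1 : l₁ ≤ l := le_trans ((le_max_left _ _).trans (le_max_left _ _)) hl
  have a2 : l₂ ≤ l := le_trans ((le_max_right _ _).trans (le_max_left _ _)) hl
  have a3 : A ≤ l := le_trans ((le_max_left _ _).trans (le_max_right _ _)) hl
  have a4 : 5 ≤ l := le_trans ((le_max_right _ _).trans (le_max_right _ _)) hl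
  refine ⟨?_, ?_, ?_, a4⟩
  · nlinarith
  · have h3 := hl₁ l a1
    rw [div_lt_div_iff₀ (by positivity) (by positivity), one_mul] at h3
    have h4 : ((A * l ^ 6 : ℕ) : ℝ) ≤ ((2 ^ l : ℕ) : ℝ) := by
      push_cast
      nlinarith [show (0 : ℝ) ≤ (l : ℝ) ^ 6 by positivity]
    exact_mod_cast h4
  · exact hl₂.trans (by exact_mod_cast a2)

lemma log_bounds (N l : ℕ) (hl : l = Nat.log 2 (Nat.log 2 N)) (hl1 : 1 ≤ l) :
    2 ^ (2 ^ l) ≤ N ∧ 0 < Real.log (Real.log ((N : ℝ) + 2)) ∧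
    Real.log (Real.log ((N : ℝ) + 2)) ≤ l + 2 := by
  have h0 : Nat.log 2 N ≠ 0 := by
    intro h
    rw [h, Nat.log_zero_right] at hl
    omega
  have hN0 : N ≠ 0 := by
    intro h
    rw [h, Nat.log_zero_right] at h0
    exact h0 rfl
  have h1 : 2 ^ l ≤ Nat.log 2 N := by rw [hl]; exact Nat.pow_log_le_self 2 h0
  have h2 : 2 ^ Nat.log 2 N ≤ N := Nat.pow_log_le_self 2 hN0
  have h3 : N < 2 ^ (Nat.log 2 N + 1) := Nat.lt_pow_succ_log_self (by norm_num) N
  have h4 : Nat.log 2 N < 2 ^ (l + 1) := by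
    rw [hl]; exact Nat.lt_pow_succ_log_self (by norm_num) _
  have h5 : 2 ^ (2 ^ l) ≤ N := (Nat.pow_le_pow_right (by norm_num) h1).trans h2
  have h6 : 4 ≤ N := by
    calc 4 = 2 ^ (2 ^ 1) := by norm_num
      _ ≤ 2 ^ (2 ^ l) := Nat.pow_le_pow_right (by norm_num) (Nat.pow_le_pow_right (by norm_num) hl1)
      _ ≤ N := h5
  have hN4 : (4 : ℝ) ≤ N := by exact_mod_cast h6
  have h7 : 1 < Real.log ((N : ℝ) + 2) := by
    rw [Real.lt_log_iff_exp_lt (by linarith)]
    have := Real.exp_one_lt_d9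
    linarith
  refine ⟨h5, Real.log_pos h7, ?_⟩
  have h8 : N + 2 ≤ 2 ^ (Nat.log 2 N + 2) := by
    rw [pow_succ]
    omega
  have h9 : Real.log ((N : ℝ) + 2) ≤ Nat.log 2 N + 2 := by
    have e1 : ((N : ℝ) + 2) ≤ 2 ^ (Nat.log 2 N + 2) := by exact_mod_cast h8
    calc Real.log ((N : ℝ) + 2) ≤ Real.log (2 ^ (Nat.log 2 N + 2)) :=
          Real.log_le_log (by linarith) e1
      _ = (Nat.log 2 N + 2 : ℕ) * Real.log 2 := Real.log_pow _ _
      _ ≤ (Nat.log 2 N + 2 : ℕ) * 1 := by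
          refine mul_le_mul_of_nonneg_left ?_ (Nat.cast_nonneg _)
          have := Real.log_two_lt_d9
          linarith
      _ = _ := by push_cast; ring
  have h10 : Nat.log 2 N + 2 ≤ 2 ^ (l + 2) := by
    rw [pow_succ 2 (l + 1)]
    have : 1 ≤ 2 ^ l := Nat.one_le_two_pow
    rw [pow_succ] at h4 ⊢
    omega
  calc Real.log (Real.log ((N : ℝ) + 2)) ≤ Real.log (2 ^ (l + 2)) := by
        refine Real.log_le_log (by linarith) (h9.trans ?_)
        exact_mod_cast h10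
    _ = (l + 2 : ℕ) * Real.log 2 := Real.log_pow _ _
    _ ≤ (l + 2 : ℕ) * 1 := by
        refine mul_le_mul_of_nonneg_left ?_ (Nat.cast_nonneg _)
        have := Real.log_two_lt_d9
        linarith
    _ = _ := by push_cast; ring

/-- **Main theorem**, for all matrices with a Paley core. -/
theorem main {ε : ℝ} (hε : 0 < ε) : ∃ q₀ : ℕ, ∀ (F : Type) [Field F] [Fintype F] [DecidableEq F]
    (H : Matrix (Option F) (Option F) ℚ), q₀ ≤ Fintype.card F →
    (∀ x y : Fˣ, H (some x) (some y) = (if x = y then 1 else 0) +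
      ((quadraticChar F ((x : F) - y) : ℤ) : ℚ)) →
    ∃ Z : Matrix (Option F) (Option F) ℚ,
      (((H - Z).rank : ℕ) : ℝ) ≤ ((Fintype.card F : ℝ) + 1) /
        Real.log (Real.log ((Fintype.card F : ℝ) + 1)) ∧
      (({p : Option F × Option F | Z p.1 p.2 ≠ 0}.ncard : ℕ) : ℝ) <
        ((Fintype.card F : ℝ) + 1) ^ (1 + ε) := by
  obtain ⟨C, hC, A, hA⟩ := good_all (half_pos hε)
  obtain ⟨l₀, hl₀⟩ := exists_ell A C
  -- the number of entries
  have hten : ∀ᶠ n : ℕ in atTop, (2 : ℝ) < (n : ℝ) ^ (ε / 2) :=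
    ((tendsto_rpow_atTop (half_pos hε)).comp tendsto_natCast_atTop_atTop).eventually_gt_atTop 2
  obtain ⟨n₀, hn₀⟩ := eventually_atTop.1 hten
  refine ⟨max (2 ^ (2 ^ l₀) + 1) n₀, fun F _ _ _ H hq hH => ?_⟩
  set N := Fintype.card Fˣ with hN
  have hcard : Fintype.card F = N + 1 := by
    rw [hN, Fintype.card_units]
    have := Fintype.card_pos (α := F)
    omega
  have hcardR : (Fintype.card F : ℝ) + 1 = (N : ℝ) + 2 := by rw [hcard]; push_cast; ring
  rw [hcardR]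
  have hNl : 2 ^ (2 ^ l₀) ≤ N := by
    have := (le_max_left _ _).trans hq
    omega
  set l := Nat.log 2 (Nat.log 2 N) with hl
  have hll : l₀ ≤ l := by
    have h1 : 2 ^ l₀ ≤ Nat.log 2 N := Nat.le_log_of_pow_le (by norm_num) hNl
    exact Nat.le_log_of_pow_le (by norm_num) h1
  obtain ⟨b1, b2, b3, b5⟩ := hl₀ l hll
  have b4 : 1 ≤ l := by omega
  obtain ⟨c1, c2, c3⟩ := log_bounds N l hl b4
  have hApx := hA (l ^ 2) b1 N (by
    refine le_trans (Nat.pow_le_pow_right (by norm_num) ?_) c1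
    rw [← pow_mul]
    exact b2)
  obtain ⟨Z, hZ1, hZ2⟩ := border hApx H hH
  have hNpos : (0 : ℝ) ≤ N := Nat.cast_nonneg N
  refine ⟨Z, hZ1.trans ?_, lt_of_le_of_lt hZ2 ?_⟩
  · rw [le_div_iff₀ c2]
    have hlR : (1 : ℝ) ≤ l := by exact_mod_cast b4
    have d1 : 2 * (C * N / ((l ^ 2 : ℕ) : ℝ)) + 4 ≤ 2 * (C * N / ((l ^ 2 : ℕ) : ℝ)) + 4 := le_rfl
    have d2 : (0 : ℝ) ≤ 2 * (C * N / ((l ^ 2 : ℕ) : ℝ)) + 4 := by positivity
    refine (mul_le_mul_of_nonneg_left c3 d2).trans ?_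
    have d3 : (l : ℝ) + 2 ≤ 3 * l := by linarith
    have d4 : 2 * (C * N / ((l ^ 2 : ℕ) : ℝ)) * (l + 2) ≤ N / 2 := by
      calc 2 * (C * N / ((l ^ 2 : ℕ) : ℝ)) * (l + 2) ≤ 2 * (C * N / ((l ^ 2 : ℕ) : ℝ)) * (3 * l) :=
            mul_le_mul_of_nonneg_left d3 (by positivity)
        _ = (6 * C / l) * N := by
            push_cast
            field_simp
            ring
        _ ≤ (1 / 2) * N := by
            refine mul_le_mul_of_nonneg_right ?_ hNpos
            rw [div_le_iff₀ (by linarith)]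
            linarith
        _ = _ := by ring
    have d5 : 4 * ((l : ℝ) + 2) ≤ N / 2 + 2 := by
      have e1 : l + 5 ≤ 2 ^ l + 4 := by
        have := (Nat.lt_two_pow_self (n := l))
        omega
      have e2 : 8 * (l + 2) ≤ N + 4 := by
        have e3 : l + 5 ≤ 2 ^ l := by
          have : ∀ k, 5 ≤ k → k + 5 ≤ 2 ^ k := by
            intro k hk
            induction k, hk using Nat.le_induction with
            | base => norm_num
            | succ k hk ih => rw [pow_succ]; omega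
          exact this l b5
        have e4 : 2 ^ (l + 5) ≤ N := (Nat.pow_le_pow_right (by norm_num) e3).trans c1
        have e5 := Nat.lt_two_pow_self (n := l)
        rw [pow_add] at e4
        omega
      have e6 : ((8 * (l + 2) : ℕ) : ℝ) ≤ ((N + 4 : ℕ) : ℝ) := by exact_mod_cast e2
      push_cast at e6
      linarith
    nlinarith
  · have hn : n₀ ≤ N + 2 := by
      have := (le_max_right _ _).trans hq
      omega
    have h2 := hn₀ (N + 2) hn
    push_cast at h2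
    have hcardR' : (Fintype.card F : ℝ) + 1 = (N : ℝ) + 2 := hcardR
    rw [hcardR']
    have hx : (1 : ℝ) < (N : ℝ) + 2 := by linarith
    have hx0 : (0 : ℝ) < (N : ℝ) + 2 := by linarith
    calc ((N : ℝ) + 2) + N * (N : ℝ) ^ (ε / 2) ≤ ((N : ℝ) + 2) * ((N : ℝ) + 2) ^ (ε / 2) +
          ((N : ℝ) + 2) * ((N : ℝ) + 2) ^ (ε / 2) := by
          refine add_le_add ?_ ?_
          · refine le_mul_of_one_le_right hx0.le ?_
            exact Real.one_le_rpow hx.le (by positivity)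
          · refine mul_le_mul (by linarith) ?_ (by positivity) hx0.le
            exact Real.rpow_le_rpow hNpos (by linarith) (by positivity)
      _ = 2 * (((N : ℝ) + 2) * ((N : ℝ) + 2) ^ (ε / 2)) := by ring
      _ < ((N : ℝ) + 2) ^ (ε / 2) * (((N : ℝ) + 2) * ((N : ℝ) + 2) ^ (ε / 2)) :=
          mul_lt_mul_of_pos_right h2 (by positivity)
      _ = ((N : ℝ) + 2) ^ (1 + ε) := by
          rw [show 1 + ε = ε / 2 + (1 + ε / 2) by ring, Real.rpow_add hx0, Real.rpow_add hx0,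
            Real.rpow_one]

end Pool.Agent.J6H23.Rig
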