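import Mathlib

/-!
# Kronecker products of involutions: sparse plus low rank

Let `A j` be matrices with `A j * A j = 1`, indexed by finite types `V j`, over a field of
characteristic zero.  Their Kronecker product is the sum of a matrix supported on the pairs of
Hamming distance at most `w`, and of a matrix of rank at most `4 |G| k / w ^ 2`, where
`G = ∏ V j` and `k` is the number of factors.
-/

set_option autoImplicit false
set_option linter.unusedSectionVars false

namespace Pool.Agent.J6H23.Rig

open Finset Matrix Polynomial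

section Kron

variable {ι : Type*} [Fintype ι] [DecidableEq ι] {V : ι → Type*} [∀ j, Fintype (V j)]
  [∀ j, DecidableEq (V j)] {F : Type*} [Field F]

/-- the Kronecker product of a finite family of matrices -/
def kron {V' V'' : ι → Type*} (A : ∀ j, Matrix (V' j) (V'' j) F) :
    Matrix (∀ j, V' j) (∀ j, V'' j) F :=
  fun x y => ∏ j, A j (x j) (y j)

lemma kron_mul (A B : ∀ j, Matrix (V j) (V j) F) :
    kron A * kron B = kron fun j => A j * B j := by
  ext x z
  simp only [Matrix.mul_apply, kron]
  rw [Finset.prod_univ_sum, Fintype.piFinset_univ]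
  exact Finset.sum_congr rfl fun y _ => (Finset.prod_mul_distrib).symm

lemma kron_one : kron (fun j => (1 : Matrix (V j) (V j) F)) = 1 := by
  ext x z
  simp only [kron, Matrix.one_apply]
  by_cases h : x = z
  · subst h; simp
  · rw [if_neg h]
    obtain ⟨j, hj⟩ := Function.ne_iff.1 h
    exact Finset.prod_eq_zero (Finset.mem_univ j) (if_neg hj)

lemma kron_diagonal (D : ∀ j, V j → F) :
    kron (fun j => Matrix.diagonal (D j)) = Matrix.diagonal fun x => ∏ j, D j (x j) := by
  ext x z
  simp only [kron, Matrix.diagonal_apply]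
  by_cases h : x = z
  · subst h; simp
  · rw [if_neg h]
    obtain ⟨j, hj⟩ := Function.ne_iff.1 h
    exact Finset.prod_eq_zero (Finset.mem_univ j) (if_neg hj)

/-- `M` is supported on the pairs of Hamming distance at most `w` -/
def Sup (w : ℕ) (M : Matrix (∀ j, V j) (∀ j, V j) F) : Prop :=
  ∀ x y, M x y ≠ 0 → hammingDist x y ≤ w

lemma Sup.mono {w w' : ℕ} (h : w ≤ w') {M : Matrix (∀ j, V j) (∀ j, V j) F} (hM : Sup w M) :
    Sup w' M := fun x y hxy => (hM x y hxy).trans h

lemma sup_zero (w : ℕ) : Sup w (0 : Matrix (∀ j, V j) (∀ j, V j) F) := by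
  intro x y h; exact absurd rfl h

lemma sup_one : Sup 0 (1 : Matrix (∀ j, V j) (∀ j, V j) F) := by
  intro x y h
  rw [Matrix.one_apply] at h
  by_cases hxy : x = y
  · subst hxy; simp
  · exact absurd (if_neg hxy) h

lemma Sup.add {w : ℕ} {M N : Matrix (∀ j, V j) (∀ j, V j) F} (hM : Sup w M) (hN : Sup w N) :
    Sup w (M + N) := by
  intro x y h
  by_cases h1 : M x y = 0
  · exact hN x y fun h2 => h (by simp [h1, h2])
  · exact hM x y h1

lemma Sup.smul {w : ℕ} {M : Matrix (∀ j, V j) (∀ j, V j) F} (hM : Sup w M) (c : F) :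
    Sup w (c • M) := by
  intro x y h
  exact hM x y fun h2 => h (by simp [h2])

lemma sup_sum {α : Type*} (s : Finset α) {w : ℕ} {M : α → Matrix (∀ j, V j) (∀ j, V j) F}
    (hM : ∀ a ∈ s, Sup w (M a)) : Sup w (∑ a ∈ s, M a) := by
  classical
  induction s using Finset.induction_on with
  | empty => simpa using sup_zero w
  | insert a s ha ih =>
    rw [Finset.sum_insert ha]
    exact (hM a (Finset.mem_insert_self a s)).add
      (ih fun b hb => hM b (Finset.mem_insert_of_mem hb))

lemma Sup.mul {w w' : ℕ} {M N : Matrix (∀ j, V j) (∀ j, V j) F} (hM : Sup w M)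
    (hN : Sup w' N) : Sup (w + w') (M * N) := by
  intro x z h
  rw [Matrix.mul_apply] at h
  obtain ⟨y, -, hy⟩ := Finset.exists_ne_zero_of_sum_ne_zero h
  have h1 := hM x y (left_ne_zero_of_mul hy)
  have h2 := hN y z (right_ne_zero_of_mul hy)
  exact (hammingDist_triangle x y z).trans (add_le_add h1 h2)

lemma Sup.pow {M : Matrix (∀ j, V j) (∀ j, V j) F} (hM : Sup 1 M) (n : ℕ) : Sup n (M ^ n) := by
  induction n with
  | zero => rw [pow_zero]; exact sup_one
  | succ n ih => rw [pow_succ]; exact ih.mul hM

lemma Sup.aeval {M : Matrix (∀ j, V j) (∀ j, V j) F} (hM : Sup 1 M) (p : F[X]) {w : ℕ}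
    (hp : p.natDegree ≤ w) : Sup w (Polynomial.aeval M p) := by
  rw [Polynomial.aeval_eq_sum_range]
  refine sup_sum _ fun i hi => ?_
  rw [Finset.mem_range] at hi
  exact ((hM.pow i).mono (by omega)).smul _

/-- an involutive matrix is diagonalizable -/
lemma exists_diag {v : Type*} [Fintype v] [DecidableEq v] (h2 : (2 : F) ≠ 0) (A : Matrix v v F)
    (hA : A * A = 1) : ∃ (P Q : Matrix v v F) (d : v → Bool), P * Q = 1 ∧ Q * P = 1 ∧
      A = P * Matrix.diagonal (fun i => if d i then (-1 : F) else 1) * Q := by
  classical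
  -- the eigenspaces
  set f : (v → F) →ₗ[F] (v → F) := Matrix.toLin' A with hf
  have hff : ∀ x, f (f x) = x := by
    intro x
    rw [hf, ← LinearMap.comp_apply, ← Matrix.toLin'_mul, hA, Matrix.toLin'_one]
    rfl
  let p : Submodule F (v → F) := LinearMap.ker (f - LinearMap.id)
  let q : Submodule F (v → F) := LinearMap.ker (f + LinearMap.id)
  have hpm : ∀ x, x ∈ p ↔ f x = x := by
    intro x
    simp [p, sub_eq_zero]
  have hqm : ∀ x, x ∈ q ↔ f x = -x := by
    intro x
    simp [q, add_eq_zero_iff_eq_neg]
  have hc : IsCompl p q := by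
    constructor
    · rw [Submodule.disjoint_def]
      intro x hx hy
      rw [hpm] at hx
      rw [hqm, hx] at hy
      have : (2 : F) • x = 0 := by rw [two_smul]; nth_rewrite 1 [hy]; simp
      exact (smul_eq_zero.1 this).resolve_left h2
    · rw [codisjoint_iff, Submodule.eq_top_iff']
      intro x
      have e1 : x = (2 : F)⁻¹ • (x + f x) + (2 : F)⁻¹ • (x - f x) := by
        rw [← smul_add, add_add_sub_cancel, ← two_smul F x, smul_smul, inv_mul_cancel₀ h2, one_smul]
      rw [e1]
      refine Submodule.add_mem_sup ?_ ?_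
      · rw [hpm, map_smul, map_add, hff, add_comm]
      · rw [hqm, map_smul, map_sub, hff, ← smul_neg, neg_sub]
  let bp := Module.finBasis F p
  let bq := Module.finBasis F q
  let b0 : Module.Basis (Fin (Module.finrank F p) ⊕ Fin (Module.finrank F q)) F (v → F) :=
    (bp.prod bq).map (Submodule.prodEquivOfIsCompl p q hc)
  have hcard : Fintype.card (Fin (Module.finrank F p) ⊕ Fin (Module.finrank F q)) =
      Fintype.card v := by
    rw [← Module.finrank_eq_card_basis b0, ← Module.finrank_eq_card_basis (Pi.basisFun F v)]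
  let e := Fintype.equivOfCardEq hcard
  let b := b0.reindex e
  let d : v → Bool := fun i => (e.symm i).isRight
  have hb0 : ∀ s, f (b0 s) = (if s.isRight then (-1 : F) else 1) • b0 s := by
    rintro (j | j)
    · have h1 : b0 (Sum.inl j) = (bp j : v → F) := by
        simp [b0, Module.Basis.map_apply]
      rw [h1, (hpm _).1 (bp j).2]
      simp
    · have h1 : b0 (Sum.inr j) = (bq j : v → F) := by
        simp [b0, Module.Basis.map_apply]
      rw [h1, (hqm _).1 (bq j).2]
      simp
  have hb : ∀ i, f (b i) = (if d i then (-1 : F) else 1) • b i := by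
    intro i
    have h1 : b i = b0 (e.symm i) := by simp [b, Module.Basis.reindex_apply]
    rw [h1]
    exact hb0 _
  let P := (Pi.basisFun F v).toMatrix b
  let Q := b.toMatrix (Pi.basisFun F v)
  have hPQ : P * Q = 1 := Module.Basis.toMatrix_mul_toMatrix_flip _ _
  have hQP : Q * P = 1 := Module.Basis.toMatrix_mul_toMatrix_flip _ _
  refine ⟨P, Q, d, hPQ, hQP, ?_⟩
  have key : A * P = P * Matrix.diagonal (fun i => if d i then (-1 : F) else 1) := by
    ext x i
    rw [Matrix.mul_diagonal]
    have h1 := congrFun (hb i) x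
    rw [hf, Matrix.toLin'_apply] at h1
    simp only [Matrix.mulVec, dotProduct, Pi.smul_apply, smul_eq_mul] at h1
    rw [Matrix.mul_apply]
    simp only [P, Module.Basis.toMatrix_apply, Pi.basisFun_repr]
    rw [h1, mul_comm]
  rw [← key, Matrix.mul_assoc, hPQ, Matrix.mul_one]

/-- second moment of a sum of independent functions with values in `{0, 1}` -/
lemma second_moment (d : ∀ j, V j → Bool) :
    ∃ μ : ℚ, ∑ y : (∀ j, V j), ((∑ j, if d j (y j) then (1 : ℚ) else 0) - μ) ^ 2 ≤
      (Fintype.card (∀ j, V j) : ℚ) * Fintype.card ι := by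
  let g : ∀ j, V j → ℚ := fun j v => if d j v then 1 else 0
  let m : ι → ℚ := fun j => (∑ v, g j v) / Fintype.card (V j)
  have hg0 : ∀ j v, 0 ≤ g j v := fun j v => by simp only [g]; split_ifs <;> norm_num
  have hg1 : ∀ j v, g j v ≤ 1 := fun j v => by simp only [g]; split_ifs <;> norm_num
  have hm0 : ∀ j, 0 ≤ m j := fun j =>
    div_nonneg (Finset.sum_nonneg fun v _ => hg0 j v) (Nat.cast_nonneg _)
  have hm1 : ∀ j, m j ≤ 1 := by
    intro j
    refine div_le_one_of_le₀ ?_ (Nat.cast_nonneg _)
    calc ∑ v, g j v ≤ ∑ v : V j, (1 : ℚ) := Finset.sum_le_sum fun v _ => hg1 j v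
      _ = _ := by simp
  let Xf : ∀ j, V j → ℚ := fun j v => g j v - m j
  have hX0 : ∀ j, ∑ v, Xf j v = 0 := by
    intro j
    simp only [Xf, Finset.sum_sub_distrib, Finset.sum_const, Finset.card_univ, nsmul_eq_mul, m]
    by_cases h : (Fintype.card (V j) : ℚ) = 0
    · have : Fintype.card (V j) = 0 := by exact_mod_cast h
      have : IsEmpty (V j) := Fintype.card_eq_zero_iff.1 this
      simp
    · field_simp
      ring
  have hX1 : ∀ j v, Xf j v ^ 2 ≤ 1 := by
    intro j v
    have := hg0 j v; have := hg1 j v; have := hm0 j; have := hm1 j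
    rw [sq_le_one_iff_abs_le_one, abs_le]
    constructor <;> simp only [Xf] <;> linarith
  refine ⟨∑ j, m j, ?_⟩
  have e1 : ∀ y : (∀ j, V j), ((∑ j, if d j (y j) then (1 : ℚ) else 0) - ∑ j, m j) ^ 2 =
      ∑ i, ∑ j, Xf i (y i) * Xf j (y j) := by
    intro y
    rw [← Finset.sum_sub_distrib, sq, Finset.sum_mul_sum]
  simp only [e1]
  rw [Finset.sum_comm]
  have e2 : ∀ i, ∑ y : (∀ j, V j), ∑ j, Xf i (y i) * Xf j (y j) ≤
      (Fintype.card (∀ j, V j) : ℚ) := by
    intro i
    rw [Finset.sum_comm]
    have e3 : ∀ j, j ≠ i → ∑ y : (∀ j, V j), Xf i (y i) * Xf j (y j) = 0 := by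
      intro j hj
      have e4 : ∀ y : (∀ j, V j), Xf i (y i) * Xf j (y j) =
          ∏ l, (if l = i then Xf l (y l) else if l = j then Xf l (y l) else 1) := by
        intro y
        rw [← Finset.mul_prod_erase Finset.univ _ (Finset.mem_univ i), if_pos rfl]
        congr 1
        have hji : j ∈ (Finset.univ.erase i) := by simp [hj]
        rw [← Finset.mul_prod_erase _ _ hji, if_neg hj, if_pos rfl]
        symm
        rw [Finset.prod_eq_one, mul_one]
        intro l hl
        rw [Finset.mem_erase, Finset.mem_erase] at hl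
        rw [if_neg hl.2.1, if_neg hl.1]
      simp only [e4]
      have := Finset.prod_univ_sum (fun j : ι => (Finset.univ : Finset (V j)))
        (fun l v => if l = i then Xf l v else if l = j then Xf l v else 1)
      rw [Fintype.piFinset_univ] at this
      rw [← this]
      refine Finset.prod_eq_zero (Finset.mem_univ i) ?_
      simp only [if_true]
      exact hX0 i
    rw [Finset.sum_eq_single i (fun j _ hj => e3 j hj) (fun h => absurd (Finset.mem_univ i) h)]
    calc ∑ y : (∀ j, V j), Xf i (y i) * Xf i (y i) ≤ ∑ y : (∀ j, V j), (1 : ℚ) := by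
          refine Finset.sum_le_sum fun y _ => ?_
          rw [← sq]; exact hX1 i (y i)
      _ = _ := by simp
  calc ∑ i, ∑ y : (∀ j, V j), ∑ j, Xf i (y i) * Xf j (y j)
      ≤ ∑ _i : ι, (Fintype.card (∀ j, V j) : ℚ) := Finset.sum_le_sum fun i _ => e2 i
    _ = _ := by simp [mul_comm]

lemma count_bound {α : Type*} [Fintype α] (B : Finset α) (q : α → ℚ) {w n k : ℕ} {μ : ℚ}
    (h1 : ∀ y ∈ B, (w : ℚ) ^ 2 / 4 ≤ (q y - μ) ^ 2)
    (h2 : ∑ y, (q y - μ) ^ 2 ≤ (n : ℚ) * k) : B.card * w ^ 2 ≤ 4 * (n * k) := by
  have h3 : (B.card : ℚ) * ((w : ℚ) ^ 2 / 4) ≤ (n : ℚ) * k := by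
    calc (B.card : ℚ) * ((w : ℚ) ^ 2 / 4) = ∑ y ∈ B, (w : ℚ) ^ 2 / 4 := by
          rw [Finset.sum_const, nsmul_eq_mul]
      _ ≤ ∑ y ∈ B, (q y - μ) ^ 2 := Finset.sum_le_sum h1
      _ ≤ ∑ y, (q y - μ) ^ 2 :=
          Finset.sum_le_sum_of_subset_of_nonneg (Finset.subset_univ B) fun y _ _ => sq_nonneg _
      _ ≤ _ := h2
  have h4 : ((B.card * w ^ 2 : ℕ) : ℚ) ≤ ((4 * (n * k) : ℕ) : ℚ) := by
    push_cast
    linarith
  exact_mod_cast h4

/-- **Kronecker products of involutions are sparse plus low rank.** -/
theorem kron_inv [CharZero F] (A : ∀ j, Matrix (V j) (V j) F) (hA : ∀ j, A j * A j = 1)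
    (w : ℕ) (hw : 0 < w) :
    ∃ (Z : Matrix (∀ j, V j) (∀ j, V j) F) (B : Finset (∀ j, V j))
      (U : Matrix (∀ j, V j) B F) (U' : Matrix B (∀ j, V j) F), Sup w Z ∧
      kron A = Z + U * U' ∧
      B.card * w ^ 2 ≤ 4 * (Fintype.card (∀ j, V j) * Fintype.card ι) := by
  classical
  have h2 : (2 : F) ≠ 0 := two_ne_zero
  choose P Q d hPQ hQP hAd using fun j => exists_diag h2 (A j) (hA j)
  have hP : kron P * kron Q = 1 := by
    rw [kron_mul]; simp only [hPQ]; exact kron_one
  have hQ : kron Q * kron P = 1 := by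
    rw [kron_mul]; simp only [hQP]; exact kron_one
  -- the number of minus signs
  let ν : (∀ j, V j) → ℕ := fun y => ∑ j, if d j (y j) then 1 else 0
  let φ : ((∀ j, V j) → F) →ₐ[F] Matrix (∀ j, V j) (∀ j, V j) F :=
    { toFun := fun c => kron P * Matrix.diagonal c * kron Q
      map_one' := by
        rw [show (1 : (∀ j, V j) → F) = fun _ => 1 from rfl, Matrix.diagonal_one, Matrix.mul_one,
          hP]
      map_mul' := by
        intro c c'
        have : Matrix.diagonal (c * c') = Matrix.diagonal c * Matrix.diagonal c' := by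
          rw [Matrix.diagonal_mul_diagonal]; rfl
        rw [this]
        calc kron P * (Matrix.diagonal c * Matrix.diagonal c') * kron Q
            = kron P * Matrix.diagonal c * 1 * Matrix.diagonal c' * kron Q := by
              simp only [Matrix.mul_one, Matrix.mul_assoc]
          _ = kron P * Matrix.diagonal c * (kron Q * kron P) * Matrix.diagonal c' * kron Q := by
              rw [hQ]
          _ = _ := by simp only [Matrix.mul_assoc]
      map_zero' := by
        rw [show (0 : (∀ j, V j) → F) = fun _ => 0 from rfl, Matrix.diagonal_zero,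
          Matrix.mul_zero, Matrix.zero_mul]
      map_add' := by
        intro c c'
        have : Matrix.diagonal (c + c') = Matrix.diagonal c + Matrix.diagonal c' := by
          rw [Matrix.diagonal_add]; rfl
        rw [this, Matrix.mul_add, Matrix.add_mul]
      commutes' := by
        intro r
        have : Matrix.diagonal ((algebraMap F ((∀ j, V j) → F)) r) =
            r • (1 : Matrix (∀ j, V j) (∀ j, V j) F) := by
          rw [Matrix.smul_one_eq_diagonal]; rfl
        rw [this, Matrix.mul_smul, Matrix.mul_one, Matrix.smul_mul, hP,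
          Algebra.algebraMap_eq_smul_one] }
  have hφ : ∀ c, φ c = kron P * Matrix.diagonal c * kron Q := fun c => rfl
  -- the Kronecker product
  have hW : kron A = φ fun y => (-1) ^ ν y := by
    have e1 : (fun j => A j) = fun j => P j * Matrix.diagonal
        (fun i => if d j i then (-1 : F) else 1) * Q j := funext hAd
    rw [hφ, show A = fun j => A j from rfl, e1, ← kron_mul, ← kron_mul, kron_diagonal]
    congr 3
    funext y
    simp only [ν]
    rw [← Finset.prod_pow_eq_pow_sum]
    refine Finset.prod_congr rfl fun j _ => ?_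
    split_ifs <;> simp
  -- the number operator is supported near the diagonal
  have hN : Sup 1 (φ fun y => (ν y : F)) := by
    have e1 : (fun y : (∀ j, V j) => (ν y : F)) =
        ∑ j, fun y : (∀ j, V j) => (if d j (y j) then (1 : F) else 0) := by
      funext y
      simp only [ν, Finset.sum_apply]
      push_cast
      rfl
    rw [e1, map_sum]
    refine sup_sum _ fun j _ => ?_
    have e2 : (fun y : (∀ j, V j) => (if d j (y j) then (1 : F) else 0)) =
        fun y => ∏ l, (if l = j then (if d l (y l) then (1 : F) else 0) else 1) := by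
      funext y
      rw [Finset.prod_ite_eq' Finset.univ j]
      simp
    have e3 : φ (fun y => (if d j (y j) then (1 : F) else 0)) =
        kron fun l => P l * Matrix.diagonal
          (fun i => if l = j then (if d l i then (1 : F) else 0) else 1) * Q l := by
      rw [e2, hφ, ← kron_diagonal (fun l i => if l = j then (if d l i then (1 : F) else 0) else 1),
        kron_mul, kron_mul]
    rw [e3]
    intro x y hxy
    have h1 : ∀ l, l ≠ j → x l = y l := by
      intro l hl
      by_contra hne
      apply hxy
      refine Finset.prod_eq_zero (Finset.mem_univ l) ?_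
      simp only [if_neg hl]
      rw [Matrix.diagonal_one, Matrix.mul_one, hPQ, Matrix.one_apply_ne hne]
    unfold hammingDist
    calc (Finset.univ.filter fun i => x i ≠ y i).card ≤ ({j} : Finset ι).card := by
          refine Finset.card_le_card fun l hl => ?_
          rw [Finset.mem_filter] at hl
          rw [Finset.mem_singleton]
          by_contra h
          exact hl.2 (h1 l h)
      _ = 1 := Finset.card_singleton j
  -- the window
  obtain ⟨μ, hμ⟩ := second_moment d
  let I : Finset ℕ := (Finset.range (Fintype.card ι + 1)).filter fun n => |(n : ℚ) - μ| ≤ w / 2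
  have hI : I.card ≤ w + 1 := by
    rcases I.eq_empty_or_nonempty with h | h
    · rw [h]; simp
    · set a := I.min' h with ha
      have ha1 : a ∈ I := I.min'_mem h
      have : I ⊆ Finset.Icc a (a + w) := by
        intro n hn
        rw [Finset.mem_Icc]
        refine ⟨I.min'_le n hn, ?_⟩
        have h1 := (Finset.mem_filter.1 hn).2
        have h3 := (Finset.mem_filter.1 ha1).2
        rw [abs_le] at h1 h3
        have : (n : ℚ) ≤ a + w := by linarith [h1.2, h3.1]
        exact_mod_cast this
      calc I.card ≤ (Finset.Icc a (a + w)).card := Finset.card_le_card this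
        _ = w + 1 := by rw [Nat.card_Icc]; omega
  let p : F[X] := Lagrange.interpolate I (fun n : ℕ => (n : F)) fun n => (-1) ^ n
  have hinj : Set.InjOn (fun n : ℕ => (n : F)) I := fun a _ b _ h => Nat.cast_injective h
  have hpdeg : p.natDegree ≤ w := by
    by_cases hp0 : p = 0
    · rw [hp0]; simp
    · have h1 : p.degree < I.card := Lagrange.degree_interpolate_lt _ hinj
      have h3 := (Polynomial.natDegree_lt_iff_degree_lt hp0).2 h1
      omega
  have hpe : ∀ n ∈ I, p.eval (n : F) = (-1) ^ n := fun n hn =>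
    Lagrange.eval_interpolate_at_node _ hinj hn
  let c : (∀ j, V j) → F := fun y => (-1) ^ ν y - p.eval (ν y : F)
  let B : Finset (∀ j, V j) := Finset.univ.filter fun y => c y ≠ 0
  have haev : Polynomial.aeval (φ fun y => (ν y : F)) p = φ fun y => p.eval (ν y : F) := by
    rw [Polynomial.aeval_algHom_apply]
    congr 1
    funext y
    rw [Polynomial.aeval_def, Polynomial.eval₂_eq_sum_range, Finset.sum_apply,
      Polynomial.eval_eq_sum_range]
    rfl
  refine ⟨Polynomial.aeval (φ fun y => (ν y : F)) p, B,
    Matrix.of fun x y => kron P x y * c y, Matrix.of fun y z => kron Q y z, hN.aeval p hpdeg,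
    ?_, ?_⟩
  · have e1 : kron A = Polynomial.aeval (φ fun y => (ν y : F)) p + φ c := by
      rw [haev, hW, ← map_add]
      congr 1
      funext y
      simp [c]
    rw [e1]
    congr 1
    rw [hφ]
    ext x z
    rw [Matrix.mul_apply, Matrix.mul_apply]
    simp only [Matrix.mul_diagonal, Matrix.of_apply]
    rw [Finset.sum_coe_sort B (fun y => kron P x y * c y * kron Q y z)]
    symm
    refine Finset.sum_subset (Finset.subset_univ B) fun y _ hy => ?_
    have : c y = 0 := by
      by_contra h
      exact hy (Finset.mem_filter.2 ⟨Finset.mem_univ y, h⟩)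
    rw [this, mul_zero, zero_mul]
  · -- Chebyshev
    have h1 : ∀ y ∈ B, (w : ℚ) ^ 2 / 4 ≤ ((∑ j, if d j (y j) then (1 : ℚ) else 0) - μ) ^ 2 := by
      intro y hy
      have hc := (Finset.mem_filter.1 hy).2
      have hνI : ν y ∉ I := by
        intro h
        apply hc
        simp only [c]
        rw [hpe _ h, sub_self]
      have hνk : ν y ∈ Finset.range (Fintype.card ι + 1) := by
        rw [Finset.mem_range, Nat.lt_succ_iff]
        calc ν y ≤ ∑ _j : ι, 1 := Finset.sum_le_sum fun j _ => by split_ifs <;> simp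
          _ = Fintype.card ι := by simp
      have h3 : ¬ |(ν y : ℚ) - μ| ≤ w / 2 := fun h => hνI (Finset.mem_filter.2 ⟨hνk, h⟩)
      rw [not_le] at h3
      have h4 : (∑ j, if d j (y j) then (1 : ℚ) else 0) = (ν y : ℚ) := by
        simp only [ν]
        push_cast
        rfl
      rw [h4, ← sq_abs ((ν y : ℚ) - μ)]
      have h5 : (0 : ℚ) ≤ w / 2 := by positivity
      nlinarith
    exact count_bound B _ h1 hμ

end Kron

end Pool.Agent.J6H23.Rig
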