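import Pool.Agent.J6H23.Rig.Descent

/-!
# Pairwise coprime square moduli of about the same size, and cyclotomic fields
-/

set_option autoImplicit false

namespace Pool.Agent.J6H23.Rig

open Finset

/-- the square roots of the moduli -/
def sqr (n t : ℕ) (j : Fin n) : ℕ := 1 + (j + 1) * (t * n.factorial)

/-- the moduli -/
def md (n t : ℕ) (j : Fin n) : ℕ := sqr n t j ^ 2

/-- their product -/
def pr (n t : ℕ) : ℕ := ∏ j : Fin n, md n t j

lemma sqr_pos (n t : ℕ) (j : Fin n) : 0 < sqr n t j := by unfold sqr; omega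

lemma md_pos (n t : ℕ) (j : Fin n) : 0 < md n t j := pow_pos (sqr_pos n t j) 2

lemma pr_pos (n t : ℕ) : 0 < pr n t := Finset.prod_pos fun j _ => md_pos n t j

lemma coprime_md (n t : ℕ) : Pairwise fun i j : Fin n => Nat.Coprime (md n t i) (md n t j) := by
  have key : ∀ i j : Fin n, i < j → Nat.Coprime (sqr n t i) (sqr n t j) := by
    intro i j hij
    rw [Nat.coprime_iff_gcd_eq_one] 
    by_contra hne
    obtain ⟨p, hp, hpd⟩ := Nat.exists_prime_and_dvd hne
    have h1 : p ∣ sqr n t i := hpd.trans (Nat.gcd_dvd_left _ _)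
    have h2 : p ∣ sqr n t j := hpd.trans (Nat.gcd_dvd_right _ _)
    have hij' : (i : ℕ) < j := hij
    have h3 : p ∣ (j - i : ℕ) * (t * n.factorial) := by
      have e : sqr n t j = sqr n t i + (j - i : ℕ) * (t * n.factorial) := by
        unfold sqr
        have : (j : ℕ) + 1 = (i + 1) + (j - i : ℕ) := by omega
        rw [this]; ring
      rw [e] at h2
      exact (Nat.dvd_add_right h1).1 h2
    have h4 : p ∣ t * n.factorial := by
      rcases (Nat.Prime.dvd_mul hp).1 h3 with h | h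
      · refine Dvd.dvd.mul_left (h.trans ?_) t
        refine Nat.dvd_factorial (by omega) ?_
        have := j.2
        omega
      · exact h
    have h5 : p ∣ 1 := by
      have : sqr n t i = 1 + (i + 1) * (t * n.factorial) := rfl
      rw [this] at h1
      exact (Nat.dvd_add_left (Dvd.dvd.mul_left h4 _)).1 h1
    exact hp.one_lt.ne' (Nat.dvd_one.1 h5)
  intro i j hij
  refine Nat.Coprime.pow 2 2 ?_
  rcases lt_or_gt_of_ne hij with h | h
  · exact key i j h
  · exact (key j i h).symm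

lemma le_pr (n t : ℕ) (hn : 0 < n) : t ≤ pr n t := by
  have h1 : md n t ⟨0, hn⟩ ∣ pr n t := Finset.dvd_prod_of_mem _ (Finset.mem_univ _)
  refine le_trans ?_ (Nat.le_of_dvd (pr_pos n t) h1)
  have h2 : t ≤ sqr n t ⟨0, hn⟩ := by
    unfold sqr
    have := Nat.factorial_pos n
    nlinarith
  unfold md
  nlinarith [sqr_pos n t ⟨0, hn⟩]

lemma pr_succ_le (n t : ℕ) (ht : 1 ≤ t) : pr n (t + 1) ≤ 4 ^ n * pr n t := by
  have h1 : ∀ j : Fin n, md n (t + 1) j ≤ 4 * md n t j := by
    intro j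
    have h2 : sqr n (t + 1) j ≤ 2 * sqr n t j := by
      unfold sqr
      have : (t + 1) * n.factorial ≤ 2 * (t * n.factorial) := by
        have := Nat.factorial_pos n
        nlinarith
      have h3 : (↑j + 1) * ((t + 1) * n.factorial) ≤ (↑j + 1) * (2 * (t * n.factorial)) :=
        Nat.mul_le_mul_left _ this
      nlinarith
    unfold md
    calc sqr n (t + 1) j ^ 2 ≤ (2 * sqr n t j) ^ 2 := Nat.pow_le_pow_left h2 2
      _ = _ := by ring
  unfold pr
  calc ∏ j, md n (t + 1) j ≤ ∏ j, 4 * md n t j := Finset.prod_le_prod' fun j _ => h1 j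
    _ = _ := by rw [Finset.prod_mul_distrib, Finset.prod_const, Finset.card_univ, Fintype.card_fin]

lemma le_pr' (n t : ℕ) : (t * n.factorial) ^ (2 * n) ≤ pr n t := by
  unfold pr
  calc (t * n.factorial) ^ (2 * n) = ∏ _j : Fin n, (t * n.factorial) ^ 2 := by
        rw [Finset.prod_const, Finset.card_univ, Fintype.card_fin, ← pow_mul]
    _ ≤ _ := by
        refine Finset.prod_le_prod' fun j _ => ?_
        unfold md sqr
        refine Nat.pow_le_pow_left ?_ 2
        nlinarith [Nat.zero_le (t * n.factorial), Nat.zero_le (j : ℕ)]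

lemma md_le (n t : ℕ) (ht : 1 ≤ t) (j : Fin n) : md n t j ≤ (2 * n * (t * n.factorial)) ^ 2 := by
  unfold md sqr
  refine Nat.pow_le_pow_left ?_ 2
  have h1 : 1 ≤ t * n.factorial := Nat.one_le_iff_ne_zero.2
    (Nat.mul_ne_zero (by omega) (Nat.factorial_ne_zero n))
  have h2 : (j : ℕ) + 1 ≤ n := j.2
  have h3 : (↑j + 1) * (t * n.factorial) ≤ n * (t * n.factorial) := Nat.mul_le_mul_right _ h2
  have h4 : 1 ≤ n := by omega
  nlinarith

lemma pr_one_le (n : ℕ) : pr n 1 ≤ 2 ^ (2 * n * (n + 1) ^ 2) := by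
  unfold pr
  have h1 : ∀ j : Fin n, md n 1 j ≤ 2 ^ (2 * (n + 1) ^ 2) := by
    intro j
    unfold md sqr
    rw [mul_comm 2, pow_mul]
    refine Nat.pow_le_pow_left ?_ 2
    have h2 : (j : ℕ) + 1 ≤ n := j.2
    have h5 : 1 ≤ n.factorial := Nat.factorial_pos n
    have h3 : (↑j + 1) * (1 * n.factorial) ≤ n * n.factorial := by
      rw [one_mul]; exact Nat.mul_le_mul_right _ h2
    calc 1 + (↑j + 1) * (1 * n.factorial) ≤ (n + 1) * n.factorial := by nlinarith
      _ = (n + 1).factorial := (Nat.factorial_succ n).symm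
      _ ≤ (n + 1) ^ (n + 1) := Nat.factorial_le_pow _
      _ ≤ (2 ^ (n + 1)) ^ (n + 1) := Nat.pow_le_pow_left (Nat.lt_two_pow_self).le _
      _ = 2 ^ ((n + 1) ^ 2) := by rw [← pow_mul, _root_.sq]
  calc ∏ j, md n 1 j ≤ ∏ _j : Fin n, 2 ^ (2 * (n + 1) ^ 2) := Finset.prod_le_prod' fun j _ => h1 j
    _ = _ := by
        rw [Finset.prod_const, Finset.card_univ, Fintype.card_fin, ← pow_mul]
        congr 1; ring

/-- choice of the moduli -/
lemma exists_moduli (n N : ℕ) (hn : 0 < n) (hN : 2 ^ (4 * n * (n + 1) ^ 2) ≤ N) :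
    ∃ t, 1 ≤ t ∧ pr n t ^ 2 ≤ N ∧ N < 16 ^ n * pr n t ^ 2 := by
  have h1 : pr n 1 ^ 2 ≤ N := by
    refine le_trans (Nat.pow_le_pow_left (pr_one_le n) 2) (le_trans (le_of_eq ?_) hN)
    rw [← pow_mul]; congr 1; ring
  by_contra hcon
  push Not at hcon
  have h2 : ∀ t, pr n (t + 1) ^ 2 ≤ N := by
    intro t
    induction t with
    | zero => exact h1
    | succ t ih =>
      have h3 := hcon (t + 1) (by omega) ih
      refine le_trans (Nat.pow_le_pow_left (pr_succ_le n (t + 1) (by omega)) 2) ?_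
      refine le_trans (le_of_eq ?_) h3
      rw [mul_pow, ← pow_mul, mul_comm n 2, pow_mul]
      norm_num
  have h3 := h2 N
  have h4 := le_pr n (N + 1) hn
  nlinarith

/-- choice of the cyclotomic field -/
lemma exists_order (q N₁ : ℕ) (hq : 0 < q) (hqN : q ≤ N₁) :
    ∃ a, 2 * N₁ ≤ (4 * q * 2 ^ a).totient ∧ (4 * q * 2 ^ a).totient ≤ 4 * N₁ := by
  have hstep : ∀ a, (4 * q * 2 ^ (a + 1)).totient = 2 * (4 * q * 2 ^ a).totient := by
    intro a
    have e : 4 * q * 2 ^ (a + 1) = 2 * (4 * q * 2 ^ a) := by ring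
    rw [e]
    refine Nat.totient_mul_of_prime_of_dvd Nat.prime_two ?_
    exact Dvd.dvd.mul_right (Dvd.dvd.mul_right (by norm_num) _) _
  by_contra hcon
  push Not at hcon
  have h1 : ∀ a, (4 * q * 2 ^ a).totient < 2 * N₁ := by
    intro a
    induction a with
    | zero =>
      by_contra h
      push Not at h
      have h2 := hcon 0 h
      have h3 := Nat.totient_le (4 * q * 2 ^ 0)
      simp only [pow_zero, mul_one] at h2 h3
      omega
    | succ a ih =>
      by_contra h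
      push Not at h
      have h2 := hcon (a + 1) h
      rw [hstep] at h2
      omega
  have h2 : ∀ a, 2 ^ a ≤ (4 * q * 2 ^ a).totient := by
    intro a
    induction a with
    | zero =>
      simp only [pow_zero, mul_one]
      exact Nat.totient_pos.2 (by omega)
    | succ a ih =>
      rw [hstep, pow_succ]
      omega
  have h3 := h1 (2 * N₁)
  have h4 := h2 (2 * N₁)
  have h5 : 2 * N₁ < 2 ^ (2 * N₁) := Nat.lt_two_pow_self
  omega

/-- the cyclotomic field -/
lemma exists_cyclo (c : ℕ) [NeZero c] : ∃ (K : Type) (_ : Field K) (_ : Algebra ℚ K)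
    (_ : CharZero K) (_ : FiniteDimensional ℚ K) (ζ : K), IsPrimitiveRoot ζ c ∧
    Module.finrank ℚ K = c.totient ∧
    LinearIndependent ℚ fun u : Fin c.totient => ζ ^ (u : ℕ) := by
  have : NeZero ((c : ℕ) : ℚ) := ⟨by exact_mod_cast NeZero.ne c⟩
  have : IsCyclotomicExtension {c} ℚ (CyclotomicField c ℚ) :=
    CyclotomicField.isCyclotomicExtension c ℚ
  have hζ : IsPrimitiveRoot (IsCyclotomicExtension.zeta c ℚ (CyclotomicField c ℚ)) c :=
    IsCyclotomicExtension.zeta_spec c ℚ (CyclotomicField c ℚ)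
  have hfr : Module.finrank ℚ (CyclotomicField c ℚ) = c.totient :=
    IsCyclotomicExtension.finrank (CyclotomicField c ℚ)
      (Polynomial.cyclotomic.irreducible_rat (NeZero.pos c))
  refine ⟨CyclotomicField c ℚ, inferInstance, inferInstance, inferInstance,
    IsCyclotomicExtension.finiteDimensional {c} ℚ (CyclotomicField c ℚ),
    IsCyclotomicExtension.zeta c ℚ (CyclotomicField c ℚ), hζ, hfr, ?_⟩
  have hdim : (hζ.powerBasis ℚ).dim = c.totient := by rw [← (hζ.powerBasis ℚ).finrank, hfr]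
  have h3 := (hζ.powerBasis ℚ).basis.linearIndependent
  rw [(hζ.powerBasis ℚ).coe_basis] at h3
  have h4 : (hζ.powerBasis ℚ).gen = IsCyclotomicExtension.zeta c ℚ (CyclotomicField c ℚ) :=
    IsPrimitiveRoot.powerBasis_gen ℚ hζ
  rw [h4] at h3
  exact h3.comp (Fin.cast hdim.symm) (Fin.cast_injective _)

/-- One step, with natural number parameters. -/
theorem step_nat (n w N : ℕ) (hw : 0 < w) (hn : 0 < n)
    (t : ℕ) (ht : 1 ≤ t) (hpN : pr n t ^ 2 ≤ N) :
    ∃ N₁ N₂ D : ℕ, 0 < N₁ ∧ N₁ * N₂ ≤ N + N₂ ∧ 2 * N₂ ≤ pr n t + 1 ∧ pr n t ≤ 2 * N₂ ∧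
      N ≤ N₁ * N₂ ∧ D ≤ 4 * N₁ ∧ N ≤ N₁ ^ 2 ∧
      ∀ s₁ r₁ : ℝ, Apx ℚ N₁ s₁ r₁ →
      Apx ℚ N ((4 ^ n * ((2 * n * (t * n.factorial)) ^ 2 : ℕ) ^ (2 * w)) * s₁)
        ((4 * ((pr n t : ℕ) * n) / w ^ 2) * D + N₂ * r₁) := by
  set q := pr n t with hq
  have hq0 : 0 < q := pr_pos n t
  let N₂ := (q + 1) / 2
  have hN2pos : 0 < N₂ := by simp only [N₂]; omega
  let N₁ := N / N₂ + 1
  have hN2le : N₂ ≤ q := by simp only [N₂]; omega
  have hmul : N ≤ N₁ * N₂ := by
    have := Nat.div_add_mod N N₂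
    have := Nat.mod_lt N hN2pos
    simp only [N₁]
    nlinarith
  have hmul2 : N₁ * N₂ ≤ N + N₂ := by
    have := Nat.div_mul_le_self N N₂
    simp only [N₁]
    nlinarith
  have hqN1 : q ≤ N₁ := by
    by_contra h
    push Not at h
    have : N₁ * N₂ < q * q := by
      calc N₁ * N₂ ≤ N₁ * q := Nat.mul_le_mul_left _ hN2le
        _ < q * q := Nat.mul_lt_mul_of_pos_right h hq0
    nlinarith
  obtain ⟨a, ha1, ha2⟩ := exists_order q N₁ hq0 hqN1
  set c := 4 * q * 2 ^ a with hc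
  have hc0 : 0 < c := by positivity
  have : NeZero c := ⟨hc0.ne'⟩
  have : ∀ j, NeZero (md n t j) := fun j => ⟨(md_pos n t j).ne'⟩
  refine ⟨N₁, N₂, c.totient, by simp only [N₁]; omega, hmul2, by simp only [N₂]; omega,
    by simp only [N₂]; omega, hmul, ha2, ?_, fun s₁ r₁ h1 => ?_⟩
  · calc N ≤ N₁ * N₂ := hmul
      _ ≤ N₁ * N₁ := Nat.mul_le_mul_left _ (hN2le.trans hqN1)
      _ = _ := (_root_.sq N₁).symm
  · obtain ⟨K, iF, iA, iC, iD, ζ, hζ, hfr, hli⟩ := exists_cyclo c
    have hdvd : ∀ j, md n t j ∣ c := fun j =>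
      (Finset.dvd_prod_of_mem _ (Finset.mem_univ j)).trans
        (Dvd.dvd.mul_right (Dvd.intro_left 4 rfl) _)
    have hroot : ∀ j, IsPrimitiveRoot (ζ ^ (c / md n t j)) (md n t j) := by
      intro j
      have h3 := hζ.pow_of_dvd (p := c / md n t j)
        (Nat.div_pos (Nat.le_of_dvd hc0 (hdvd j)) (md_pos n t j)).ne'
        (Nat.div_dvd_of_dvd (hdvd j))
      rwa [Nat.div_div_self (hdvd j) hc0.ne'] at h3
    have h4c : 4 ∣ c := Dvd.dvd.mul_right (Dvd.intro q rfl) _
    have hI4 : IsPrimitiveRoot (ζ ^ (c / 4)) 4 := by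
      have h3 := hζ.pow_of_dvd (p := c / 4)
        (Nat.div_pos (Nat.le_of_dvd hc0 h4c) (by norm_num)).ne' (Nat.div_dvd_of_dvd h4c)
      rwa [Nat.div_div_self h4c hc0.ne'] at h3
    have hI : ζ ^ (c / 4) * ζ ^ (c / 4) = -1 := by
      have h3 := hI4.pow_of_dvd (p := 2) (by norm_num) (by norm_num)
      rw [← _root_.sq]
      exact IsPrimitiveRoot.eq_neg_one_of_two_right h3
    have h2 := apx_field (K := K) (m := md n t) (sqr n t) (fun j => rfl) (coprime_md n t)
      (fun j => ζ ^ (c / md n t j)) hroot _ hI w hw ((2 * n * (t * n.factorial)) ^ 2)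
      (md_le n t ht) (Nat.one_le_iff_ne_zero.2 (pow_ne_zero 2 (Nat.mul_ne_zero (by omega)
        (Nat.mul_ne_zero (by omega) (Nat.factorial_ne_zero n))))) N₂
      (by simp only [N₂]; change 2 * ((q + 1) / 2) ≤ q + 1; omega)
    rw [Fintype.card_fin] at h2
    exact descent ζ c.totient hfr hli h1 h2 (by omega) (by simp only [N₁]; omega) hmul

end Pool.Agent.J6H23.Rig
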